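import Pool.Agent.H33.NFT.Dat

/-!
# Labels of the images of a family under polynomial maps

`lbr_img`: a closed label with record of a coordinate of the window with new lines is a closed
label with record of the coordinate which is an affine function of this coordinate.
-/

set_option autoImplicit false

namespace Pool.NFT33

open Finset Real MvPolynomial
open Pool.Agent.H49.Ent Pool.Agent.H32.Dense Pool.STK Pool.KA Pool.KSAT Pool.K2S Pool.PB Pool.S6C
open Pool.GEN Pool.REX Pool.REX83 Pool.TGT Pool.GRW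

variable {m n J : ℕ}

/-- The line determines the line in the window. -/
theorem win_of_slam (v : Vz m) (F : Fam m J) {w : ℕ} (hw : w ≤ J - v.B J) {ω ω' : F.Ω}
    (h : slam F (v.B J + w) ω = slam F (v.B J + w) ω') :
    slam (v.win F) w ω = slam (v.win F) w ω' := by
  have hB := (v.floor_le J).1
  have h1 := Prod.ext_iff.mp h
  have hl : F.l ω = F.l ω' := h1.1
  have h2 := Prod.ext_iff.mp h1.2
  have hZ : F.Z ω = F.Z ω' := h2.1
  have hT : F.T1 (v.B J + w) ω = F.T1 (v.B J + w) ω' := h2.2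
  have hu : F.u ω = F.u ω' := (Prod.ext_iff.mp hl).1
  have hd : F.d ω = F.d ω' := (Prod.ext_iff.mp hl).2
  rw [T1_add F (by omega) hB ω, T1_add F (by omega) hB ω'] at hT
  have hlt : ∀ ω : F.Ω, F.T ω % 2 ^ (J - v.B J) / 2 ^ (J - v.B J - w) < 2 ^ w := by
    intro ω
    rw [Nat.div_lt_iff_lt_mul (by positivity), ← pow_add]
    have e : w + (J - v.B J - w) = J - v.B J := by omega
    rw [e]
    exact Nat.mod_lt _ (by positivity)
  have hT1 : F.T1 (v.B J) ω = F.T1 (v.B J) ω' := by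
    have h3 : (2 ^ w * F.T1 (v.B J) ω + F.T ω % 2 ^ (J - v.B J) / 2 ^ (J - v.B J - w)) / 2 ^ w =
      (2 ^ w * F.T1 (v.B J) ω' + F.T ω' % 2 ^ (J - v.B J) / 2 ^ (J - v.B J - w)) / 2 ^ w := by
      rw [hT]
    rw [Nat.mul_add_div (by positivity), Nat.mul_add_div (by positivity),
      Nat.div_eq_of_lt (hlt ω), Nat.div_eq_of_lt (hlt ω')] at h3
    simpa using h3
  have hT2 : F.T ω % 2 ^ (J - v.B J) / 2 ^ (J - v.B J - w) =
      F.T ω' % 2 ^ (J - v.B J) / 2 ^ (J - v.B J - w) := by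
    rw [hT1] at hT
    exact Nat.add_left_cancel hT
  have hx1 : F.x1 (v.B J) ω = F.x1 (v.B J) ω' := Pool.KA.Win.x1_det F (v.B J) hu hd hT1
  have hwu : (F.win (v.B J)).u ω = (F.win (v.B J)).u ω' := by
    funext i
    show Int.fract (2 ^ v.B J * F.x1 (v.B J) ω i) = Int.fract (2 ^ v.B J * F.x1 (v.B J) ω' i)
    rw [hx1]
  have hc : F.c (v.B J) ω = F.c (v.B J) ω' := by
    unfold Fam.c
    rw [hT1, hx1, hZ]
  have hyy : v.y J F ω = v.y J F ω' := v.line J F ω ω' (Prod.ext hl (Prod.ext hZ hT1))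
  exact Prod.ext (Prod.ext hwu hd) (Prod.ext (Prod.ext hyy hc) hT2)

/-- The time in the window. -/
theorem win_tt (v : Vz m) (F : Fam m J) (ω : F.Ω) :
    (v.win F).t ω = 2 ^ v.B J * F.t ω - (((v.win F).Z ω).2.1.1 : ℝ) :=
  win_t F (v.floor_le J).1 ω

section sgm

/-- The coordinates of the window with new lines, as polynomials. -/
noncomputable def sgm (B J' ρ : ℕ) (κ : Fin n) (c₀ : Fin m) (t₀ x₀ : ℝ)
    (P : Fin n → MvPolynomial (Option (Fin m)) ℝ) :
    Option (Fin n) → MvPolynomial (Option (Fin m)) ℝ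
  | none => C (2 ^ B) * X none - C t₀
  | some i => if i = κ then C (2 ^ B) * X (some c₀) - C x₀ else C (2 ^ ρ / 2 ^ J') * P i

variable {B J' ρ : ℕ} {κ : Fin n} {c₀ : Fin m} {t₀ x₀ : ℝ}
  {P : Fin n → MvPolynomial (Option (Fin m)) ℝ} (b : Option (Fin m) → ℝ)

theorem sgm_none : eval b (sgm B J' ρ κ c₀ t₀ x₀ P none) = 2 ^ B * b none - t₀ := by
  unfold sgm
  rw [map_sub, map_mul, eval_C, eval_C, eval_X]

theorem sgm_κ : eval b (sgm B J' ρ κ c₀ t₀ x₀ P (some κ)) = 2 ^ B * b (some c₀) - x₀ := by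
  have e : sgm B J' ρ κ c₀ t₀ x₀ P (some κ) = C (2 ^ B) * X (some c₀) - C x₀ := if_pos rfl
  rw [e, map_sub, map_mul, eval_C, eval_C, eval_X]

theorem sgm_some {i : Fin n} (hi : i ≠ κ) :
    eval b (sgm B J' ρ κ c₀ t₀ x₀ P (some i)) = 2 ^ ρ / 2 ^ J' * eval b (P i) := by
  have e : sgm B J' ρ κ c₀ t₀ x₀ P (some i) = C (2 ^ ρ / 2 ^ J') * P i := if_neg hi
  rw [e, map_mul, eval_C]

theorem deg_lin (B : ℕ) (o : Option (Fin m)) (x : ℝ) :
    (C (2 ^ B) * X o - C x : MvPolynomial (Option (Fin m)) ℝ).totalDegree ≤ 1 := by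
  refine (totalDegree_sub _ _).trans (max_le ?_ (by rw [totalDegree_C]; exact Nat.zero_le _))
  refine (totalDegree_mul _ _).trans ?_
  rw [totalDegree_C, totalDegree_X]

theorem deg_sgm {K : ℕ} (hP : ∀ i, (P i).totalDegree ≤ K) (o : Option (Fin n)) :
    (sgm B J' ρ κ c₀ t₀ x₀ P o).totalDegree ≤ K + 1 := by
  rcases o with _ | i
  · exact (deg_lin B none t₀).trans (by omega)
  · by_cases hi : i = κ
    · have e : sgm B J' ρ κ c₀ t₀ x₀ P (some i) = C (2 ^ B) * X (some c₀) - C x₀ := if_pos hi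
      rw [e]
      exact (deg_lin B (some c₀) x₀).trans (by omega)
    · have e : sgm B J' ρ κ c₀ t₀ x₀ P (some i) = C (2 ^ ρ / 2 ^ J') * P i := if_neg hi
      rw [e]
      refine (totalDegree_mul _ _).trans ?_
      rw [totalDegree_C]
      have := hP i
      omega

end sgm

/-- **A label of the window with new lines is a label of the family.** -/
theorem lbr_img {F : Fam m J} {v : Vz m} {f : Nw v n} {c₀ : Fin m} {κ kN : Fin n}
    {K ρ k₁ : ℕ} {Pi : (v.win F).ζ → Fin n → MvPolynomial (Option (Fin m)) ℝ} {A : F.Ω → Prop}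
    (h : ImH F v f c₀ κ K ρ k₁ Pi A) (hkN : kN ≠ κ) {I : Finset (Fin m)} {I' : Finset (Fin n)}
    (hcI : c₀ ∈ I) {kt : Fin m} (hkt : kt ∉ I) {al : (v.win F).ζ → ℝ}
    {R : (v.win F).ζ → MvPolynomial (Option (Fin m)) ℝ} {α : ℝ} (hα : 0 < α)
    (hal : ∀ ω, A ω → α ≤ |al ((v.win F).Z ω)|)
    (hPi : ∀ y, Pi y kN = C (al y) * (X (some kt) - R y)) (hRd : ∀ y, (R y).totalDegree ≤ K)
    (hRI : ∀ y, ∀ b b' : Option (Fin m) → ℝ, b none = b' none →
      (∀ i ∈ I, b (some i) = b' (some i)) → eval b (R y) = eval b' (R y))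
    (hPI : ∀ y, ∀ i ∈ I', i ≠ κ → ∀ b b' : Option (Fin m) → ℝ, b none = b' none →
      (∀ i ∈ I, b (some i) = b' (some i)) → eval b (Pi y i) = eval b' (Pi y i))
    {kF k : ℕ} (hk : k ≤ k₁) (hkF : k ≤ kF) {K' w' P' P₂ : ℕ} (hw : w' ≤ J - v.B J)
    (hP' : P' ≤ J - v.B J)
    (hnum : (2 : ℝ) ^ (P₂ + 1) * 2 ^ (J - v.B J) ≤ 2 ^ P' * (2 ^ ρ * α)) {V : Type}
    {z : PtT (winI v f F) → (v.win F).ζ × (Fin n → ℤ) → V} {z' : LnT (winI v f F) → V}
    {G : V → MvPolynomial (Option (Fin n)) ℝ}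
    (hL : Lbr (winI v f F) I' kN K' w' P'
      (fun ω => ((v.win F).Z ω, (winI v f F).D k ω)) A z z' G) :
    ∃ B : F.Ω → Prop, Sub B A ∧ Pe F.p A ≤ (99 ^ m * (99 ^ n * 99 ^ n) : ℝ) * Pe F.p B ∧
      ∃ (V₂ : Type) (z₂ : PtT F → v.κ J F × (Fin m → ℤ) → V₂) (z₂' : LnT F → V₂)
        (G₂ : V₂ → MvPolynomial (Option (Fin m)) ℝ),
        Lbr F I kt (K' * (K + 1) + K) (v.B J + w') P₂ (fun ω => (v.y J F ω, F.D kF ω)) B
          z₂ z₂' G₂ := by
  classical
  have hB := (v.floor_le J).1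
  obtain ⟨B, hBA, hBm, hdet⟩ := imh_part h (kF := kF) (k := k) hk hkF
  refine ⟨B, hBA, hBm, ?_⟩
  obtain ⟨val, hval⟩ : ∃ val : F.Ω → V × (v.win F).ζ, val = fun ω =>
    (z' (slam (winI v f F) w' ω), (v.win F).Z ω) := ⟨_, rfl⟩
  -- the value is a function of the point and of the record
  obtain ⟨yp, hyp⟩ := fac (f := fun ω => (ptr F J ω, (v.y J F ω, F.D kF ω))) (Y := val) (B := B)
    (by
    intro ω ω' hω hω' e
    have e1 := Prod.ext_iff.mp e
    have e2 := Prod.ext_iff.mp e1.2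
    obtain ⟨a1, a2⟩ := hdet ω ω' hω hω' e1.1 e2.1 e2.2
    have a3 : (v.win F).Z ω = (v.win F).Z ω' := (Prod.ext_iff.mp (Prod.ext_iff.mp a1).2).2
    rw [hval]
    refine Prod.ext ?_ a3
    show z' (slam (winI v f F) w' ω) = z' (slam (winI v f F) w' ω')
    rw [← hL.cls ω (hBA ω hω), ← hL.cls ω' (hBA ω' hω'), a1]
    show z (ptr (winI v f F) (J - v.B J) ω') ((v.win F).Z ω, (winI v f F).D k ω) =
      z (ptr (winI v f F) (J - v.B J) ω') ((v.win F).Z ω', (winI v f F).D k ω')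
    rw [a2, a3])
  -- the value is a function of the line
  obtain ⟨yl, hyl⟩ := fac (f := slam F (v.B J + w')) (Y := val) (B := B) (by
    intro ω ω' hω hω' hsl
    have a1 := win_of_slam v F hw hsl
    have a2 : slam (winI v f F) w' ω = slam (winI v f F) w' ω' := img_slam (v.win F) (f J F) a1
    have a3 : (v.win F).Z ω = (v.win F).Z ω' := (Prod.ext_iff.mp (Prod.ext_iff.mp a1).2).1
    rw [hval]
    refine Prod.ext ?_ a3
    show z' (slam (winI v f F) w' ω) = z' (slam (winI v f F) w' ω')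
    rw [a2])
  obtain ⟨σ, hσ⟩ : ∃ σ : (v.win F).ζ → Option (Fin n) → MvPolynomial (Option (Fin m)) ℝ,
    σ = fun y => sgm (v.B J) (J - v.B J) ρ κ c₀ (y.2.1.1 : ℝ) (y.2.1.2 c₀ : ℝ) (Pi y) := ⟨_, rfl⟩
  obtain ⟨Gf, hGf⟩ : ∃ Gf : Option (V × (v.win F).ζ) → MvPolynomial (Option (Fin m)) ℝ,
    Gf = fun o => match o with
    | none => 0
    | some u => R u.2 + C (2 ^ (J - v.B J) / (2 ^ ρ * al u.2)) * aeval (σ u.2) (G u.1) := ⟨_, rfl⟩
  -- the values of the new polynomials
  have hev : ∀ (u : V × (v.win F).ζ) (b : Option (Fin m) → ℝ), eval b (Gf (some u)) =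
      eval b (R u.2) + 2 ^ (J - v.B J) / (2 ^ ρ * al u.2) *
        eval (fun o => eval b (σ u.2 o)) (G u.1) := by
    intro u b
    rw [hGf]
    show eval b (R u.2 + C (2 ^ (J - v.B J) / (2 ^ ρ * al u.2)) * aeval (σ u.2) (G u.1)) = _
    rw [map_add, map_mul, eval_C, eval_aevalσ]
  have hdep : ∀ o, ∀ b b' : Option (Fin m) → ℝ, b none = b' none →
      (∀ i ∈ I, b (some i) = b' (some i)) → eval b (Gf o) = eval b' (Gf o) := by
    intro o b b' hn hb
    rcases o with _ | u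
    · rw [hGf]
      show eval b (0 : MvPolynomial (Option (Fin m)) ℝ) = eval b' 0
      rw [map_zero, map_zero]
    · rw [hev, hev, hRI u.2 b b' hn hb]
      congr 2
      refine hL.dep _ _ _ ?_ fun i hi => ?_
      · rw [hσ]
        show eval b (sgm _ _ _ _ _ _ _ _ none) = eval b' (sgm _ _ _ _ _ _ _ _ none)
        rw [sgm_none, sgm_none, hn]
      · rw [hσ]
        show eval b (sgm _ _ _ _ _ _ _ _ (some i)) = eval b' (sgm _ _ _ _ _ _ _ _ (some i))
        by_cases hi' : i = κ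
        · subst hi'
          rw [sgm_κ, sgm_κ, hb c₀ hcI]
        · rw [sgm_some b hi', sgm_some b' hi', hPI u.2 i hi hi' b b' hn hb]
  refine ⟨Option (V × (v.win F).ζ), fun u r => yp (u, r), yl, Gf, ⟨fun o => ?_, hdep,
    fun ω hω => ?_, fun ω hω b hb => ?_⟩⟩
  · rcases o with _ | u
    · rw [hGf]
      show (0 : MvPolynomial (Option (Fin m)) ℝ).totalDegree ≤ _
      rw [totalDegree_zero]
      exact Nat.zero_le _
    · rw [hGf]
      show (R u.2 + C (2 ^ (J - v.B J) / (2 ^ ρ * al u.2)) *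
        aeval (σ u.2) (G u.1)).totalDegree ≤ _
      refine (totalDegree_add _ _).trans (max_le ((hRd _).trans (by omega)) ?_)
      refine (totalDegree_mul _ _).trans ?_
      rw [totalDegree_C, zero_add]
      have e1 : (aeval (σ u.2) (G u.1)).totalDegree ≤ (K + 1) * K' := by
        refine totalDegree_aevalσ (fun o => ?_) (hL.deg _)
        rw [hσ]
        exact deg_sgm (h.deg u.2) o
      rw [mul_comm (K + 1) K'] at e1
      omega
  · have e1 : yp (ptr F J ω, (v.y J F ω, F.D kF ω)) = some (val ω) := hyp ω hω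
    show yp (ptr F J ω, (v.y J F ω, F.D kF ω)) = yl (slam F (v.B J + w') ω)
    rw [e1, hyl ω hω]
  · rw [hyl ω hω]
    have hA := hBA ω hω
    -- the point with the exact coordinate `kt`
    obtain ⟨b', hb'⟩ : ∃ b' : Option (Fin m) → ℝ, b' = fun o => if o = some kt then F.x ω kt else
      b o := ⟨_, rfl⟩
    have hb'k : b' (some kt) = F.x ω kt := by rw [hb']; exact if_pos rfl
    have hb'n : ∀ o, o ≠ some kt → b' o = b o := fun o ho => by rw [hb']; exact if_neg ho
    have hb'b : ∀ o, |b' o - bt F ω o| ≤ 1 / 2 ^ J := by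
      intro o
      by_cases ho : o = some kt
      · rw [ho, hb'k]
        show |F.x ω kt - F.x ω kt| ≤ _
        rw [sub_self, abs_zero]
        positivity
      · rw [hb'n o ho]
        exact hb o
    have hdb : eval b (Gf (some (val ω))) = eval b' (Gf (some (val ω))) := by
      refine hdep _ b b' (hb'n none (by simp)).symm fun i hi => ?_
      refine (hb'n (some i) fun hcon => ?_).symm
      rw [Option.some.inj hcon] at hi
      exact hkt hi
    rw [hdb, hev]
    obtain ⟨y, hy⟩ : ∃ y, y = (v.win F).Z ω := ⟨_, rfl⟩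
    have hv2 : (val ω).2 = y := by rw [hval, hy]
    have hv1 : (val ω).1 = z' (slam (winI v f F) w' ω) := by rw [hval]
    rw [hv2, hv1]
    obtain ⟨P, hP⟩ : ∃ P : ℝ, P = 2 ^ (J - v.B J) := ⟨_, rfl⟩
    have pP : 0 < P := by rw [hP]; positivity
    have eJ : (2 : ℝ) ^ J = P * 2 ^ v.B J := by
      rw [hP, ← pow_add, Nat.sub_add_cancel hB]
    have u1 : (2 : ℝ) ^ v.B J * (1 / 2 ^ J) = 1 / P := by
      rw [eJ]
      field_simp
    have u2 : (1 : ℝ) / 2 ^ (J - v.B J + 4) = 1 / P / 16 := by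
      rw [pow_add, ← hP]
      norm_num
      ring
    -- the coordinates of the new point
    have hcoo : ∀ i, i ≠ κ → |2 ^ ρ / P * eval b' (Pi y i) - (winI v f F).x ω i| ≤ 1 / P := by
      intro i hi
      have h1 := h.near ω hA i hi
      have h2 := h.slp ω hA i hi b' hb'b
      rw [← hy] at h1 h2
      rw [u2, ← hP] at h1
      have h3 : |2 ^ ρ / P * eval b' (Pi y i) - 2 ^ ρ / P * eval (bt F ω) (Pi y i)| ≤
          1 / P * (1 / 2) := by
        rw [← mul_sub, abs_mul, abs_of_pos (by positivity : (0 : ℝ) < 2 ^ ρ / P)]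
        calc 2 ^ ρ / P * |eval b' (Pi y i) - eval (bt F ω) (Pi y i)| =
              1 / P * (2 ^ ρ * |eval b' (Pi y i) - eval (bt F ω) (Pi y i)|) := by ring
          _ ≤ 1 / P * (1 / 2) := mul_le_mul_of_nonneg_left h2 (by positivity)
      have pP' : 0 < 1 / P := by positivity
      rw [abs_le] at h1 h3 ⊢
      constructor <;> linarith [h1.1, h1.2, h3.1, h3.2]
    have hbb : ∀ o, |eval b' (σ y o) - bt (winI v f F) ω o| ≤ 1 / 2 ^ (J - v.B J) := by
      intro o
      rw [← hP]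
      rcases o with _ | i
      · have e1 : eval b' (σ y none) = 2 ^ v.B J * b' none - (y.2.1.1 : ℝ) := by
          rw [hσ]
          exact sgm_none b'
        have e2 : bt (winI v f F) ω none = (v.win F).t ω := rfl
        rw [e1, e2, win_tt, ← hy]
        have e3 : 2 ^ v.B J * b' none - (y.2.1.1 : ℝ) - (2 ^ v.B J * F.t ω - (y.2.1.1 : ℝ)) =
            2 ^ v.B J * (b' none - F.t ω) := by ring
        rw [e3, abs_mul, abs_of_pos (by positivity : (0 : ℝ) < 2 ^ v.B J), ← u1]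
        exact mul_le_mul_of_nonneg_left (hb'b none) (by positivity)
      · by_cases hi : i = κ
        · subst hi
          have e1 : eval b' (σ y (some i)) = 2 ^ v.B J * b' (some c₀) - (y.2.1.2 c₀ : ℝ) := by
            rw [hσ]
            exact sgm_κ b'
          have e2 : bt (winI v f F) ω (some i) = (v.win F).x ω c₀ := h.x0 hA
          have e4 : ((fl (v.B J) (F.x1 (v.B J) ω) c₀ : ℤ) : ℝ) = (y.2.1.2 c₀ : ℝ) := by
            rw [hy]
            rfl
          rw [e1, e2, win_x, e4]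
          have e3 : 2 ^ v.B J * b' (some c₀) - (y.2.1.2 c₀ : ℝ) -
              (2 ^ v.B J * F.x ω c₀ - (y.2.1.2 c₀ : ℝ)) =
              2 ^ v.B J * (b' (some c₀) - F.x ω c₀) := by ring
          rw [e3, abs_mul, abs_of_pos (by positivity : (0 : ℝ) < 2 ^ v.B J), ← u1]
          exact mul_le_mul_of_nonneg_left (hb'b (some c₀)) (by positivity)
        · have e1 : eval b' (σ y (some i)) = 2 ^ ρ / P * eval b' (Pi y i) := by
            rw [hσ, hP]
            exact sgm_some b' hi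
          rw [e1]
          exact hcoo i hi
    have h5 := hL.pos ω hA (fun o => eval b' (σ y o)) hbb
    have h6 := hcoo kN hkN
    have ha0 : α ≤ |al y| := by
      rw [hy]
      exact hal ω hA
    have hal0 : al y ≠ 0 := fun h0 => by
      rw [h0, abs_zero] at ha0
      linarith
    have e7 : eval b' (Pi y kN) = al y * (F.x ω kt - eval b' (R y)) := by
      rw [hPi y, map_mul, map_sub, eval_C, eval_X, hb'k]
    rw [e7] at h6
    obtain ⟨g, hg⟩ : ∃ g, g = eval (fun o => eval b' (σ y o)) (G (z' (slam (winI v f F) w' ω))) :=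
      ⟨_, rfl⟩
    rw [← hg] at h5
    rw [← hP, ← hg]
    obtain ⟨r, hr⟩ : ∃ r, r = eval b' (R y) := ⟨_, rfl⟩
    rw [← hr] at h6
    rw [← hr]
    obtain ⟨xN, hxN⟩ : ∃ xN, xN = (winI v f F).x ω kN := ⟨_, rfl⟩
    rw [← hxN] at h5 h6
    -- the difference
    have hPP' : 1 / P ≤ 1 / 2 ^ P' := by
      rw [hP]
      exact inv_mono hP'
    have h8 : |2 ^ ρ / P * (al y * (F.x ω kt - r)) - g| ≤ 2 * (1 / 2 ^ P') := by
      rw [abs_le] at h5 h6 ⊢
      constructor <;> linarith [h5.1, h5.2, h6.1, h6.2]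
    have e9 : F.x ω kt - (r + P / (2 ^ ρ * al y) * g) =
        P / (2 ^ ρ * al y) * (2 ^ ρ / P * (al y * (F.x ω kt - r)) - g) := by
      field_simp
      ring
    have h10 : |P / (2 ^ ρ * al y)| ≤ P / (2 ^ ρ * α) := by
      rw [abs_div, abs_mul, abs_of_pos pP, abs_of_pos (by positivity : (0 : ℝ) < 2 ^ ρ)]
      exact div_le_div_of_nonneg_left pP.le (by positivity)
        (mul_le_mul_of_nonneg_left ha0 (by positivity))
    rw [e9, abs_mul]
    refine (mul_le_mul h10 h8 (abs_nonneg _) (by positivity)).trans ?_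
    rw [← hP, pow_succ] at hnum
    have e11 : P / (2 ^ ρ * α) * (2 * (1 / 2 ^ P')) = 2 * P / (2 ^ P' * (2 ^ ρ * α)) := by
      field_simp
    rw [e11, div_le_div_iff₀ (by positivity) (by positivity), one_mul]
    linarith

end Pool.NFT33
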