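import Pool.Agent.H65.ORD.Zpl
import Pool.Agent.H89.IMG.Lbi

/-!
# No labels of the images, from no labels of the class

`ImN`: the data of an image with the last coordinate an affine function of the target. `not_img`:
if there is no closed label of the target over the base above its level, then there is no closed
label of the last coordinate of the windows with new lines.
-/

set_option autoImplicit false

namespace Pool.NFT33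

open Finset Real MvPolynomial Filter
open Pool.Agent.H49.Ent Pool.Agent.H32.Dense Pool.STK Pool.KA Pool.KSAT Pool.K2S Pool.PB Pool.S6C
open Pool.GEN Pool.REX Pool.REX83 Pool.TGT Pool.GRW Pool.ORD65
open Pool.OWN17 (root_fix)
open Pool.STAT.CLO (Inj)

variable {m n J : ℕ}

/-- **The image of a polynomial map whose coordinate `kN` is affine in the coordinate `kt`.** -/
structure ImN (F : Fam m J) (v : Vz m) (f : Nw v n) (c₀ : Fin m) (κ kN : Fin n) (kt : Fin m)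
    (I : Finset (Fin m)) (I' : Finset (Fin n)) (K ρ k₁ : ℕ) (α : ℝ)
    (Pi : (v.win F).ζ → Fin n → MvPolynomial (Option (Fin m)) ℝ) (al : (v.win F).ζ → ℝ)
    (R : (v.win F).ζ → MvPolynomial (Option (Fin m)) ℝ) (A : F.Ω → Prop) : Prop where
  im : ImH F v f c₀ κ K ρ k₁ Pi A
  ab : ∀ ω, A ω → α ≤ |al ((v.win F).Z ω)|
  eq : ∀ y, Pi y kN = C (al y) * (X (some kt) - R y)
  deg : ∀ y, (R y).totalDegree ≤ K
  dpR : ∀ y, ∀ b b' : Option (Fin m) → ℝ, b none = b' none →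
    (∀ i ∈ I, b (some i) = b' (some i)) → eval b (R y) = eval b' (R y)
  dpP : ∀ y, ∀ i ∈ I', i ≠ κ → ∀ b b' : Option (Fin m) → ℝ, b none = b' none →
    (∀ i ∈ I, b (some i) = b' (some i)) → eval b (Pi y i) = eval b' (Pi y i)

/-- The numbers of the windows. -/
theorem imn_num (v : Vz m) {C₁ wp wp₂ q q₂ q₁ PN PN' rr αe : ℝ} {ρJ kJ : ℕ → ℕ} {αJ : ℕ → ℝ}
    (hρ : ∀ J : ℕ, rr * J - C₁ ≤ ρJ J) (hα : ∀ J : ℕ, (2 : ℝ) ^ (αe * J - C₁) ≤ αJ J)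
    (hkJ : ∀ J : ℕ, q₁ * J - C₁ ≤ kJ J) (hwp0 : 0 ≤ wp) (hwp1 : wp ≤ 1)
    (hwp₂ : v.b + (1 - v.b) * wp < wp₂) (hwp₂1 : wp₂ ≤ 1) (hq0 : 0 ≤ q)
    (hq₂ : (1 - v.b) * q < q₂) (hqq₁ : (1 - v.b) * q < q₁) (hPN0 : 0 ≤ PN) (hPN'0 : 0 ≤ PN')
    (hPN'1 : PN' ≤ 1) (hPN : PN + (1 - v.b) < PN' * (1 - v.b) + rr + αe) :
    ∀ᶠ J : ℕ in atTop, (⌊wp * ((J - v.B J : ℕ) : ℝ)⌋₊ ≤ J - v.B J ∧
      v.B J + ⌊wp * ((J - v.B J : ℕ) : ℝ)⌋₊ ≤ ⌊wp₂ * J⌋₊ ∧ ⌊wp₂ * J⌋₊ ≤ J) ∧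
      (⌊q * ((J - v.B J : ℕ) : ℝ)⌋₊ ≤ ⌊q₂ * J⌋₊ ∧ ⌊q * ((J - v.B J : ℕ) : ℝ)⌋₊ ≤ kJ J) ∧
      ⌊PN' * ((J - v.B J : ℕ) : ℝ)⌋₊ ≤ J - v.B J ∧ 0 < αJ J ∧
      (2 : ℝ) ^ (⌊PN * J⌋₊ + 1) * 2 ^ (J - v.B J) ≤
        2 ^ ⌊PN' * ((J - v.B J : ℕ) : ℝ)⌋₊ * (2 ^ ρJ J * αJ J) := by
  have hb0 := v.b0
  have hb1 := v.b1
  filter_upwards [evl hwp₂ 2, evl hq₂ q, evl hqq₁ (q + C₁), evl hPN (4 + 2 * C₁ + 1)] with J
    h1 h2 h3 h4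
  have hJ0 : (0 : ℝ) ≤ J := Nat.cast_nonneg J
  obtain ⟨J', hJ'⟩ : ∃ J' : ℝ, J' = ((J - v.B J : ℕ) : ℝ) := ⟨_, rfl⟩
  have e1 : J' = J - v.B J := by rw [hJ', Nat.cast_sub (v.floor_le J).1]
  have e2 : (v.B J : ℝ) ≤ v.b * J := Nat.floor_le (mul_nonneg hb0 hJ0)
  have e3 : v.b * J - 1 < (v.B J : ℝ) := Nat.sub_one_lt_floor _
  have hJ'0 : 0 ≤ J' := by rw [hJ']; exact Nat.cast_nonneg _
  rw [← hJ']
  have f1 : (⌊wp * J'⌋₊ : ℝ) ≤ wp * J' := Nat.floor_le (mul_nonneg hwp0 hJ'0)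
  have f2 : (⌊q * J'⌋₊ : ℝ) ≤ q * J' := Nat.floor_le (mul_nonneg hq0 hJ'0)
  have f3 : (⌊PN' * J'⌋₊ : ℝ) ≤ PN' * J' := Nat.floor_le (mul_nonneg hPN'0 hJ'0)
  have f4 : PN' * J' - 1 < (⌊PN' * J'⌋₊ : ℝ) := Nat.sub_one_lt_floor _
  have f5 : (⌊PN * J⌋₊ : ℝ) ≤ PN * J := Nat.floor_le (mul_nonneg hPN0 hJ0)
  have hJ1 : J' ≤ (1 - v.b) * J + 1 := by rw [e1]; linarith
  have hJ2 : (1 - v.b) * J ≤ J' := by rw [e1]; linarith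
  refine ⟨⟨?_, ?_, ?_⟩, ⟨?_, ?_⟩, ?_, ?_, ?_⟩
  · have h5 : (⌊wp * J'⌋₊ : ℝ) ≤ J' := f1.trans (by nlinarith)
    rw [hJ'] at h5
    rw [hJ']
    exact_mod_cast h5
  · refine Nat.le_floor ?_
    push_cast
    have h5 : wp * J' ≤ wp * ((1 - v.b) * J + 1) := mul_le_mul_of_nonneg_left hJ1 hwp0
    nlinarith
  · refine Nat.floor_le_of_le ?_
    have := mul_le_mul_of_nonneg_right hwp₂1 hJ0
    linarith
  · refine Nat.le_floor (f2.trans ?_)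
    have h5 : q * J' ≤ q * ((1 - v.b) * J + 1) := mul_le_mul_of_nonneg_left hJ1 hq0
    linarith
  · have h5 : q * J' ≤ q * ((1 - v.b) * J + 1) := mul_le_mul_of_nonneg_left hJ1 hq0
    have h6 := hkJ J
    have h7 : (⌊q * J'⌋₊ : ℝ) ≤ kJ J := by linarith
    exact_mod_cast h7
  · have h5 : (⌊PN' * J'⌋₊ : ℝ) ≤ J' := f3.trans (by nlinarith)
    rw [hJ'] at h5
    rw [hJ']
    exact_mod_cast h5
  · exact (Real.rpow_pos_of_pos two_pos _).trans_le (hα J)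
  · have g1 : (2 : ℝ) ^ (⌊PN * J⌋₊ + 1) * 2 ^ (J - v.B J) =
        (2 : ℝ) ^ ((⌊PN * J⌋₊ : ℝ) + 1 + J') := by
      rw [← pow_add, ← Real.rpow_natCast]
      congr 1
      push_cast
      rw [hJ']
    have g2 : (2 : ℝ) ^ ⌊PN' * J'⌋₊ * (2 ^ ρJ J * (2 : ℝ) ^ (αe * J - C₁)) =
        (2 : ℝ) ^ ((⌊PN' * J'⌋₊ : ℝ) + (ρJ J + (αe * J - C₁))) := by
      rw [Real.rpow_add two_pos, Real.rpow_add two_pos, Real.rpow_natCast, Real.rpow_natCast]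
    rw [g1]
    refine le_trans ?_ (mul_le_mul_of_nonneg_left (mul_le_mul_of_nonneg_left (hα J)
      (by positivity : (0 : ℝ) ≤ 2 ^ ρJ J)) (by positivity))
    rw [g2]
    refine Real.rpow_le_rpow_of_exponent_le one_le_two ?_
    have h5 : PN' * ((1 - v.b) * J) ≤ PN' * J' := mul_le_mul_of_nonneg_left hJ2 hPN'0
    have h6 := hρ J
    linarith

/-- **No closed labels of the last coordinate of the windows with new lines.** -/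
theorem not_img {S : PCl m} {n₀ : ℕ} (hn₀ : 2 ≤ n₀) {c : ℕ → Fin m} (hc : Inj c (n₀ + 1))
    {Λ : ∀ J : ℕ, Fam m J → Type} {lab : ∀ (J : ℕ) (F : Fam m J), F.Ω → Λ J F} {v : Vz m}
    {J₁ : ℕ} (hy : ∀ J ≥ J₁, ∀ F : Fam m J, ∃ ψ : Λ J F → v.κ J F,
      ∀ ω, v.y J F ω = ψ (lab J F ω))
    (f : Nw v n₀) {idx : ℕ → Fin n₀} (hidx : ∀ j < n₀, (idx j : ℕ) = j)
    {PN w w₁ qm : ℝ} (hno : NoT S c n₀ lab PN w w₁ qm) (hw : w < v.b) {K : ℕ} {ρJ kJ : ℕ → ℕ}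
    {αJ : ℕ → ℝ}
    (hdat : Bas S (fun J F A => ∃ (Pi : (v.win F).ζ → Fin n₀ → MvPolynomial (Option (Fin m)) ℝ)
      (al : (v.win F).ζ → ℝ) (R : (v.win F).ζ → MvPolynomial (Option (Fin m)) ℝ),
      ImN F v f (c 0) (idx 0) (idx (n₀ - 1)) (c n₀) ((range n₀).image c)
        ((range (n₀ - 1)).image idx) K (ρJ J) (kJ J) (αJ J) Pi al R A))
    {C₁ rr αe q₁ PN' w₁' qm' : ℝ} (hρ : ∀ J : ℕ, rr * J - C₁ ≤ ρJ J)
    (hα : ∀ J : ℕ, (2 : ℝ) ^ (αe * J - C₁) ≤ αJ J) (hkJ : ∀ J : ℕ, q₁ * J - C₁ ≤ kJ J)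
    (hw₁ : v.b + (1 - v.b) * w₁' ≤ w₁) (hw₁1 : w₁ ≤ 1) (hqm : (1 - v.b) * qm' ≤ qm)
    (hq₁ : (1 - v.b) * qm' ≤ q₁) (hPN0 : 0 ≤ PN) (hPN'0 : 0 ≤ PN') (hPN'1 : PN' ≤ 1)
    (hPN : PN + (1 - v.b) < PN' * (1 - v.b) + rr + αe) :
    NoT (WyI S v f) idx (n₀ - 1) (fun _ F => F.Z) PN' 0 w₁' qm' := by
  classical
  have hb0 := v.b0
  have hb1 := v.b1
  have hcb : 0 < 1 - v.b := by linarith
  intro S₁ hne₁ hsub₁ K' wp q hwp0 hwp1 hq0 hqm' hbas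
  -- the windows and the digits
  have h1 : v.b + (1 - v.b) * wp < w₁ := by
    have := mul_lt_mul_of_pos_left hwp1 hcb
    linarith
  obtain ⟨wp₂, hwp₂, hwp₂1⟩ := exists_between h1
  have h2 : (1 - v.b) * q < qm := by
    have := mul_lt_mul_of_pos_left hqm' hcb
    linarith
  obtain ⟨q₂, hq₂, hq₂1⟩ := exists_between h2
  have h3 : (1 - v.b) * q < q₁ := by
    have := mul_lt_mul_of_pos_left hqm' hcb
    linarith
  have hwpw : w < wp₂ := by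
    have := mul_pos hcb hwp0
    linarith
  have hq₂0 : 0 < q₂ := (mul_pos hcb hq0).trans hq₂
  have hwp11 : wp ≤ 1 := by
    by_contra hcon
    push Not at hcon
    have := mul_lt_mul_of_pos_left hcon hcb
    linarith
  obtain ⟨J₂, hJ₂⟩ := Filter.eventually_atTop.1 (imn_num v hρ hα hkJ hwp0.le hwp11 hwp₂
    (hwp₂1.le.trans hw₁1) hq0.le hq₂ h3 hPN0 hPN'0 hPN'1 hPN)
  -- the families
  have hne₂ := slI_ne v f hne₁ hsub₁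
  have hsub₂ : ∀ (τ : ℝ) (J : ℕ) (F : Fam m J) (A : F.Ω → Prop),
      (S.sl (slI v f S₁)).St τ J F A → S.St τ J F A := fun τ J F A h => h.1
  have hb := bas_wyi.1 (slI_bas v f (S₁ := S) hbas)
  have hctN : c n₀ ∉ (range n₀).image c := by
    intro hcon
    obtain ⟨l, hl, hl2⟩ := Finset.mem_image.1 hcon
    have h5 := Finset.mem_range.1 hl
    have := hc l (by omega) n₀ (by omega) hl2
    omega
  have hc0 : c 0 ∈ (range n₀).image c := Finset.mem_image_of_mem c (Finset.mem_range.2 (by omega))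
  have hkN : idx (n₀ - 1) ≠ idx 0 := by
    intro hcon
    have h5 := hidx (n₀ - 1) (by omega)
    have h6 := hidx 0 (by omega)
    rw [hcon, h6] at h5
    omega
  have key : Bas (S.sl (slI v f S₁)) (fun J F A => ∃ (d : NDat F (Λ J F × (Fin m → ℤ)))
      (B : F.Ω → Prop), Sub B A ∧ Pe F.p A ≤ (99 ^ m * (99 ^ n₀ * 99 ^ n₀) : ℝ) * Pe F.p B ∧
      Lbr F ((range n₀).image c) (c n₀) (K' * (K + 1) + K) ⌊wp₂ * J⌋₊ ⌊PN * J⌋₊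
        (fun ω => (lab J F ω, F.D ⌊q₂ * J⌋₊ ω)) B d.z d.z' d.G) := by
    refine Bas.mono (max J₁ J₂) (hb.and (Bas.sub hsub₂ hdat)) ?_
    rintro J hJ F A ⟨⟨V, z, z', G, hL⟩, ⟨Pi, al, R, hI⟩⟩
    obtain ⟨⟨n1, n2, n3⟩, ⟨n4, n5⟩, n6, n7, n8⟩ := hJ₂ J ((le_max_right _ _).trans hJ)
    obtain ⟨ψ, hψ⟩ := hy J ((le_max_left _ _).trans hJ) F
    obtain ⟨B, hBA, hBm, V₂, z₂, z₂', G₂, hG⟩ := lbr_img hI.im hkN hc0 hctN n7 hI.ab hI.eq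
      hI.deg hI.dpR hI.dpP n5 n4 n1 n6 n8 hL
    have hG2 := (hG.win n2 n3).fine (yd' := fun ω => (lab J F ω, F.D ⌊q₂ * J⌋₊ ω))
      (fun x => (ψ x.1, x.2)) fun ω _ => by rw [hψ ω]
    exact ⟨⟨V₂, _, _, _⟩, B, hBA, hBm, hG2⟩
  obtain ⟨S₄, dN, hne₄, hsub₄, hN₄⟩ := root_fix (Δ := fun J F => NDat F (Λ J F × (Fin m → ℤ)))
    hne₂ (fun J F d A => Lbr F ((range n₀).image c) (c n₀) (K' * (K + 1) + K) ⌊wp₂ * J⌋₊
      ⌊PN * J⌋₊ (fun ω => (lab J F ω, F.D ⌊q₂ * J⌋₊ ω)) A d.z d.z' d.G)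
    (fun J F d A B h hB => h.sub hB) key
  refine hno S₄ hne₄ (fun τ J F A h => hsub₂ τ J F A (hsub₄ τ J F A h)) (K' * (K + 1) + K) wp₂ q₂
    hwpw hwp₂1 hq₂0 hq₂1 ⟨1, one_pos, 0, fun J _ F A hA => ?_⟩
  exact ⟨(dN J F).V, (dN J F).z, (dN J F).z', (dN J F).G, hN₄ 1 J F A hA⟩

end Pool.NFT33
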