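import Pool.Agent.H89.IMG.NotI

/-!
# Closed values of the windows with new lines

`zmx_down`: a closed value of the windows with new lines of a class is a closed value of the class
(with the label of the place and digits of the velocities as record): the entropy of the base given
this value. `wyi_int`: a subclass of two classes of windows with new lines.
-/

set_option autoImplicit false

namespace Pool.NFT33

open Finset Real MvPolynomial Filter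
open Pool.Agent.H49.Ent Pool.Agent.H32.Dense Pool.STK Pool.KA Pool.KSAT Pool.K2S Pool.PB Pool.S6C
open Pool.GEN Pool.REX Pool.REX83 Pool.TGT Pool.GRW Pool.ORD65
open Pool.OWN17 (root_fix)
open Pool.STAT.CLO (Inj)

variable {m n J : ℕ}

/-- The numbers of the windows. -/
theorem dn_num (v : Vz m) {C₁ wp wp₂ q q₂ q₁ : ℝ} {kJ : ℕ → ℕ}
    (hkJ : ∀ J : ℕ, q₁ * J - C₁ ≤ kJ J) (hwp0 : 0 ≤ wp) (hwp1 : wp ≤ 1)
    (hwp₂ : v.b + (1 - v.b) * wp < wp₂) (hwp₂1 : wp₂ ≤ 1) (hq0 : 0 ≤ q)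
    (hq₂ : (1 - v.b) * q < q₂) (hqq₁ : (1 - v.b) * q < q₁) :
    ∀ᶠ J : ℕ in atTop, (⌊wp * ((J - v.B J : ℕ) : ℝ)⌋₊ ≤ J - v.B J ∧
      v.B J + ⌊wp * ((J - v.B J : ℕ) : ℝ)⌋₊ ≤ ⌊wp₂ * J⌋₊ ∧ ⌊wp₂ * J⌋₊ ≤ J) ∧
      ⌊q * ((J - v.B J : ℕ) : ℝ)⌋₊ ≤ ⌊q₂ * J⌋₊ ∧ ⌊q * ((J - v.B J : ℕ) : ℝ)⌋₊ ≤ kJ J := by
  have h := imn_num v (C₁ := |C₁|) (PN := 0) (PN' := 1) (rr := 0) (αe := 1) (ρJ := fun _ => 0)
    (kJ := kJ) (αJ := fun J => (2 : ℝ) ^ ((1 : ℝ) * J)) (fun J => by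
      have := abs_nonneg C₁
      simp only [zero_mul, Nat.cast_zero]
      linarith) (fun J => Real.rpow_le_rpow_of_exponent_le one_le_two (by
        have := abs_nonneg C₁
        linarith)) (fun J => by
        have := le_abs_self C₁
        linarith [hkJ J]) hwp0 hwp1 hwp₂ hwp₂1 hq0 hq₂ hqq₁ le_rfl zero_le_one le_rfl (by linarith)
  filter_upwards [h] with J hJ
  exact ⟨hJ.1, hJ.2.1⟩

/-- **A closed value of the windows with new lines** is a closed value of the class. -/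
theorem zmx_down {S : PCl m} {c : ℕ → Fin m} {n₀ : ℕ} {Λ : ∀ J : ℕ, Fam m J → Type}
    {lab : ∀ (J : ℕ) (F : Fam m J), F.Ω → Λ J F} {X₀ w w₁ qm : ℝ}
    (hzm : ZmX S c n₀ lab X₀ w w₁ qm) {v : Vz m} {J₁ : ℕ}
    (hy : ∀ J ≥ J₁, ∀ F : Fam m J, ∃ ψ : Λ J F → v.κ J F, ∀ ω, v.y J F ω = ψ (lab J F ω))
    (hw : w < v.b) (hw1 : w₁ ≤ 1) {f : Nw v n} {κ : Fin n} {K : ℕ} {ρJ kJ : ℕ → ℕ}
    {Pi : ∀ (J : ℕ) (F : Fam m J), (v.win F).ζ → Fin n → MvPolynomial (Option (Fin m)) ℝ}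
    (him : Bas S (fun J F A => ImH F v f (c 0) κ K (ρJ J) (kJ J) (Pi J F) A)) {q₁ C₁ : ℝ}
    (hkJ : ∀ J : ℕ, q₁ * J - C₁ ≤ kJ J) {S₁ : PCl n} (hne₁ : S₁.Ne)
    (hsub : ∀ (τ : ℝ) (J : ℕ) (F : Fam n J) (A : F.Ω → Prop), S₁.St τ J F A →
      (WyI S v f).St τ J F A)
    {wp' q' : ℝ} (hwp0 : 0 < wp') (hwp1 : v.b + (1 - v.b) * wp' < w₁) (hq0 : 0 < q')
    (hqm : (1 - v.b) * q' < qm) (hq1 : (1 - v.b) * q' < q₁) (V' : ∀ J : ℕ, Fam n J → Type)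
    (z : ∀ (J : ℕ) (F : Fam n J), PtT F → F.ζ → (Fin n → ℤ) → V' J F)
    (z' : ∀ (J : ℕ) (F : Fam n J), LnT F → V' J F)
    (hz : ∀ (τ : ℝ) (J : ℕ) (F : Fam n J) (A : F.Ω → Prop), S₁.St τ J F A → ∀ ω, A ω →
      z J F (ptr F J ω) (F.Z ω) (F.D ⌊q' * J⌋₊ ω) = z' J F (slam F ⌊wp' * J⌋₊ ω)) :
    ∃ (S₂ : PCl m) (q : ℝ), S₂.Ne ∧ 0 < q ∧
      (∀ (τ : ℝ) (J : ℕ) (F : Fam m J) (A : F.Ω → Prop), S₂.St τ J F A → S.St τ J F A) ∧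
      (∀ (τ : ℝ) (J : ℕ) (F : Fam m J) (A : F.Ω → Prop), S₂.St τ J F A →
        S₁.St (1 / (1 - v.b) * τ) (J - v.B J) (winI v f F) A) ∧
      (∀ (τ : ℝ) (J : ℕ) (F : Fam m J) (A : F.Ω → Prop), S₂.St τ J F A → ∀ ω ω', A ω → A ω' →
        F.D ⌊q * J⌋₊ ω = F.D ⌊q * J⌋₊ ω' →
        (winI v f F).D ⌊q' * ((J - v.B J : ℕ) : ℝ)⌋₊ ω =
          (winI v f F).D ⌊q' * ((J - v.B J : ℕ) : ℝ)⌋₊ ω') ∧
      ∀ ρ : ℝ, 0 < ρ → Bas S₂ (fun J F A => (X₀ - ρ) * Real.log 2 * J ≤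
        CH (Pool.Agent.H49.Ent.cond F.p A True) (fun ω (l : Fin n₀) => F.X J ω (c l))
          (fun ω => (lab J F ω, (F.D ⌊q * J⌋₊ ω, ((z' (J - v.B J) (winI v f F)
            (slam (winI v f F) ⌊wp' * ((J - v.B J : ℕ) : ℝ)⌋₊ ω), (v.win F).Z ω), F.T ω))))) := by
  classical
  have hb0 := v.b0
  have hb1 := v.b1
  have hcb : 0 < 1 - v.b := by linarith
  obtain ⟨wp, hwpa, hwpb⟩ := exists_between hwp1
  obtain ⟨q, hqa, hqb⟩ := exists_between hqm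
  have hq00 : 0 < q := (mul_pos hcb hq0).trans hqa
  have hwpw : w < wp := by
    have := mul_pos hcb hwp0
    linarith
  have hwp'1 : wp' ≤ 1 := by
    by_contra hcon
    push Not at hcon
    have := mul_lt_mul_of_pos_left hcon hcb
    linarith
  obtain ⟨J₂, hJ₂⟩ := Filter.eventually_atTop.1 (dn_num v hkJ hwp0.le hwp'1 hwpa
    (hwpb.le.trans hw1) hq0.le hqa hq1)
  have hne₂ := slI_ne v f hne₁ hsub
  have hsub₂ : ∀ (τ : ℝ) (J : ℕ) (F : Fam m J) (A : F.Ω → Prop),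
      (S.sl (slI v f S₁)).St τ J F A → S.St τ J F A := fun τ J F A h => h.1
  have hsl : ∀ (τ : ℝ) (J : ℕ) (F : Fam m J) (A : F.Ω → Prop),
      (S.sl (slI v f S₁)).St τ J F A → S₁.St (1 / (1 - v.b) * τ) (J - v.B J) (winI v f F) A :=
    fun τ J F A h => h.2
  -- the value
  obtain ⟨VV, hVV⟩ : ∃ VV : ∀ J : ℕ, Fam m J → Type, VV = fun J F =>
    Option (V' (J - v.B J) (winI v f F) × (v.win F).ζ) := ⟨_, rfl⟩
  obtain ⟨val, hval⟩ : ∃ val : ∀ (J : ℕ) (F : Fam m J), F.Ω →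
      Option (V' (J - v.B J) (winI v f F) × (v.win F).ζ), val = fun J F ω =>
    some (z' (J - v.B J) (winI v f F) (slam (winI v f F) ⌊wp' * ((J - v.B J : ℕ) : ℝ)⌋₊ ω),
      (v.win F).Z ω) := ⟨_, rfl⟩
  have key : Bas (S.sl (slI v f S₁)) (fun J F A =>
      ∃ (d : (PtT F → Λ J F → (Fin m → ℤ) → Option (V' (J - v.B J) (winI v f F) × (v.win F).ζ)) ×
        (LnT F → Option (V' (J - v.B J) (winI v f F) × (v.win F).ζ))) (B : F.Ω → Prop),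
      Sub B A ∧ Pe F.p A ≤ (99 ^ m * (99 ^ n * 99 ^ n) * 99 ^ n : ℝ) * Pe F.p B ∧
      ((∀ ω, B ω → d.1 (ptr F J ω) (lab J F ω) (F.D ⌊q * J⌋₊ ω) = val J F ω ∧
          d.2 (slam F ⌊wp * J⌋₊ ω) = val J F ω) ∧
        ∀ ω ω', B ω → B ω' → F.D ⌊q * J⌋₊ ω = F.D ⌊q * J⌋₊ ω' →
          (winI v f F).D ⌊q' * ((J - v.B J : ℕ) : ℝ)⌋₊ ω =
            (winI v f F).D ⌊q' * ((J - v.B J : ℕ) : ℝ)⌋₊ ω')) := by
    obtain ⟨τ₀, hτ₀, J₃, him'⟩ := Bas.sub hsub₂ him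
    refine ⟨τ₀, hτ₀, max J₃ (max J₁ J₂), fun J hJ F A hA => ?_⟩
    have h := him' J ((le_max_left _ _).trans hJ) F A hA
    obtain ⟨ψ, hψ⟩ := hy J ((le_max_left _ _).trans ((le_max_right _ _).trans hJ)) F
    obtain ⟨⟨n1, n2, n3⟩, n4, n5⟩ := hJ₂ J ((le_max_right _ _).trans ((le_max_right _ _).trans hJ))
    have hzF := hz _ _ _ _ (hsl τ₀ J F A hA)
    obtain ⟨B₀, hBA₀, hBm₀, hdet₀⟩ := imh_part h (kF := ⌊q * (J : ℝ)⌋₊)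
      (k := ⌊q' * ((J - v.B J : ℕ) : ℝ)⌋₊) n5 n4
    obtain ⟨B, hBB, hBm₁, φ, hφ⟩ := Pool.S6K.exact_label F.isLaw 49
      (F.D ⌊q * (J : ℝ)⌋₊) (fun ω => (winI v f F).D ⌊q' * ((J - v.B J : ℕ) : ℝ)⌋₊ ω) B₀
      (fun ω ω' hω hω' hp i => by
        have hp' : F.D ⌊q' * ((J - v.B J : ℕ) : ℝ)⌋₊ ω = F.D ⌊q' * ((J - v.B J : ℕ) : ℝ)⌋₊ ω' :=
          Pool.STK.B58.fl_fine n4 hp
        exact_mod_cast h.nD (hBA₀ ω hω) (hBA₀ ω' hω') n5 hp' i)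
    have h99 : ((2 : ℝ) * (49 : ℕ) + 1) = 99 := by norm_num
    rw [h99] at hBm₁
    have hBA : Sub B A := fun ω hω => hBA₀ ω (hBB ω hω)
    have hBm : Pe F.p A ≤ (99 ^ m * (99 ^ n * 99 ^ n) * 99 ^ n : ℝ) * Pe F.p B := by
      calc Pe F.p A ≤ (99 ^ m * (99 ^ n * 99 ^ n) : ℝ) * Pe F.p B₀ := hBm₀
        _ ≤ (99 ^ m * (99 ^ n * 99 ^ n) : ℝ) * (99 ^ n * Pe F.p B) :=
            mul_le_mul_of_nonneg_left hBm₁ (by positivity)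
        _ = _ := by ring
    have hdet := fun ω ω' (hω : B ω) (hω' : B ω') => hdet₀ ω ω' (hBB ω hω) (hBB ω' hω')
    obtain ⟨yp, hyp⟩ := fac (f := fun ω => (ptr F J ω, (lab J F ω, F.D ⌊q * (J : ℝ)⌋₊ ω)))
      (Y := fun ω => (z' (J - v.B J) (winI v f F)
        (slam (winI v f F) ⌊wp' * ((J - v.B J : ℕ) : ℝ)⌋₊ ω), (v.win F).Z ω)) (B := B) (by
      intro ω ω' hω hω' e
      have e1 := Prod.ext_iff.mp e
      have e2 := Prod.ext_iff.mp e1.2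
      have e3 : v.y J F ω = v.y J F ω' := by
        rw [hψ ω, hψ ω', show lab J F ω = lab J F ω' from e2.1]
      obtain ⟨a1, a2⟩ := hdet ω ω' hω hω' e1.1 e3 e2.2
      have a3 : (v.win F).Z ω = (v.win F).Z ω' := (Prod.ext_iff.mp (Prod.ext_iff.mp a1).2).2
      refine Prod.ext ?_ a3
      show z' (J - v.B J) (winI v f F) (slam (winI v f F) ⌊wp' * ((J - v.B J : ℕ) : ℝ)⌋₊ ω) =
        z' (J - v.B J) (winI v f F) (slam (winI v f F) ⌊wp' * ((J - v.B J : ℕ) : ℝ)⌋₊ ω')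
      rw [← hzF ω (hBA ω hω), ← hzF ω' (hBA ω' hω'), a1]
      show z _ _ (ptr (winI v f F) (J - v.B J) ω') ((v.win F).Z ω)
        ((winI v f F).D ⌊q' * ((J - v.B J : ℕ) : ℝ)⌋₊ ω) =
        z _ _ (ptr (winI v f F) (J - v.B J) ω') ((v.win F).Z ω')
          ((winI v f F).D ⌊q' * ((J - v.B J : ℕ) : ℝ)⌋₊ ω')
      rw [a2, a3])
    obtain ⟨yl, hyl⟩ := fac (f := slam F ⌊wp * (J : ℝ)⌋₊)
      (Y := fun ω => (z' (J - v.B J) (winI v f F)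
        (slam (winI v f F) ⌊wp' * ((J - v.B J : ℕ) : ℝ)⌋₊ ω), (v.win F).Z ω)) (B := B) (by
      intro ω ω' hω hω' hsl
      have a0 := Pool.EXC33.slam_of n2 n3 hsl
      have a1 := win_of_slam v F n1 a0
      have a2 : slam (winI v f F) ⌊wp' * ((J - v.B J : ℕ) : ℝ)⌋₊ ω =
          slam (winI v f F) ⌊wp' * ((J - v.B J : ℕ) : ℝ)⌋₊ ω' := img_slam (v.win F) (f J F) a1
      have a3 : (v.win F).Z ω = (v.win F).Z ω' := (Prod.ext_iff.mp (Prod.ext_iff.mp a1).2).1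
      refine Prod.ext ?_ a3
      show z' (J - v.B J) (winI v f F) (slam (winI v f F) ⌊wp' * ((J - v.B J : ℕ) : ℝ)⌋₊ ω) =
        z' (J - v.B J) (winI v f F) (slam (winI v f F) ⌊wp' * ((J - v.B J : ℕ) : ℝ)⌋₊ ω')
      rw [a2])
    refine ⟨(fun u l x => yp (u, (l, x)), yl), B, hBA, hBm, fun ω hω => ⟨?_, ?_⟩,
      fun ω ω' hω hω' hD => ?_⟩
    · show yp (ptr F J ω, (lab J F ω, F.D ⌊q * (J : ℝ)⌋₊ ω)) = val J F ω
      rw [hyp ω hω, hval]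
    · show yl (slam F ⌊wp * (J : ℝ)⌋₊ ω) = val J F ω
      rw [hyl ω hω, hval]
    · show (winI v f F).D ⌊q' * ((J - v.B J : ℕ) : ℝ)⌋₊ ω =
        (winI v f F).D ⌊q' * ((J - v.B J : ℕ) : ℝ)⌋₊ ω'
      rw [hφ ω hω, hφ ω' hω', hD]
  obtain ⟨S₃, dN, hne₃, hsub₃, hN₃⟩ := root_fix
    (Δ := fun J F => (PtT F → Λ J F → (Fin m → ℤ) →
      Option (V' (J - v.B J) (winI v f F) × (v.win F).ζ)) ×
        (LnT F → Option (V' (J - v.B J) (winI v f F) × (v.win F).ζ)))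
    hne₂ (fun J F d A =>
      (∀ ω, A ω → d.1 (ptr F J ω) (lab J F ω) (F.D ⌊q * J⌋₊ ω) = val J F ω ∧
        d.2 (slam F ⌊wp * J⌋₊ ω) = val J F ω) ∧
      ∀ ω ω', A ω → A ω' → F.D ⌊q * J⌋₊ ω = F.D ⌊q * J⌋₊ ω' →
        (winI v f F).D ⌊q' * ((J - v.B J : ℕ) : ℝ)⌋₊ ω =
          (winI v f F).D ⌊q' * ((J - v.B J : ℕ) : ℝ)⌋₊ ω')
    (fun J F d A B h hB => ⟨fun ω hω => h.1 ω (hB ω hω),
      fun ω ω' hω hω' => h.2 ω ω' (hB ω hω) (hB ω' hω')⟩) key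
  have hsub₃S : ∀ (τ : ℝ) (J : ℕ) (F : Fam m J) (A : F.Ω → Prop), S₃.St τ J F A → S.St τ J F A :=
    fun τ J F A h => hsub₂ τ J F A (hsub₃ τ J F A h)
  obtain ⟨S₄, hne₄, hsub₄, hX⟩ := hzm S₃ hne₃ hsub₃S wp hwpw hwpb q hq00 hqb
    (fun J F => Option (V' (J - v.B J) (winI v f F) × (v.win F).ζ)) (fun J F => (dN J F).1)
    (fun J F => (dN J F).2) (fun τ J F A hA ω hω => by
      obtain ⟨a1, a2⟩ := (hN₃ τ J F A hA).1 ω hω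
      rw [a1, a2])
  refine ⟨S₄, q, hne₄, hq00, fun τ J F A h => hsub₃S τ J F A (hsub₄ τ J F A h),
    fun τ J F A h => hsl τ J F A (hsub₃ τ J F A (hsub₄ τ J F A h)),
    fun τ J F A h => (hN₃ τ J F A (hsub₄ τ J F A h)).2, fun ρ hρ => ?_⟩
  obtain ⟨τ₁, hτ₁, J₄, hX'⟩ := hX ρ hρ
  refine ⟨τ₁, hτ₁, J₄, fun J hJ F A hA => (hX' J hJ F A hA).trans ?_⟩
  have h5 := (hN₃ τ₁ J F A (hsub₄ τ₁ J F A hA)).1
  refine CH_mono_cond (fun ω => Pool.Agent.H49.Ent.cond_nonneg F.isLaw.nonneg A True ω)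
    fun ω ω' h6 h7 e => ?_
  have a1 := (h5 ω (of_condp h6)).2
  have a2 := (h5 ω' (of_condp h7)).2
  simp only [Prod.mk.injEq] at e ⊢
  obtain ⟨e1, e2, e3, e4⟩ := e
  rw [a1, a2, hval] at e3
  have e5 := Option.some.inj e3
  exact ⟨e1, e2, Prod.ext_iff.1 e5, e4⟩

/-- A class as a property of families. -/
def sldP (S' : PCl n) : Sld n where
  P τ J F A := S'.St τ J F A
  mono h h1 := S'.mono h h1
  res h0 h1 hB hP := S'.res h0 h1 hB hP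

/-- **A subclass** of a class and of the windows with new lines of a class. -/
theorem wyi_int {v : Vz m} {f : Nw v n} {S₂ : PCl m} (hne : S₂.Ne) {S₁ : PCl n}
    (h : ∀ (τ : ℝ) (J : ℕ) (F : Fam m J) (A : F.Ω → Prop), S₂.St τ J F A →
      S₁.St (1 / (1 - v.b) * τ) (J - v.B J) (winI v f F) A) :
    ∃ S₃ : PCl n, S₃.Ne ∧
      (∀ (τ : ℝ) (J : ℕ) (F : Fam n J) (A : F.Ω → Prop), S₃.St τ J F A → S₁.St τ J F A) ∧
      ∀ (τ : ℝ) (J : ℕ) (F : Fam n J) (A : F.Ω → Prop), S₃.St τ J F A →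
        (WyI S₂ v f).St τ J F A := by
  have hb0 := v.b0
  have hb1 := v.b1
  have hc : 0 < 1 - v.b := by linarith
  refine ⟨S₁.sl (sldP (WyI S₂ v f)), ?_, fun τ J F A h => h.1, fun τ J F A h => h.2⟩
  intro τ hτ J₁
  obtain ⟨J₂, hJ₂⟩ := exists_nat_ge (1 / (1 - v.b) * J₁)
  obtain ⟨J, hJ, F, A, hA⟩ := hne ((1 - v.b) * τ) (mul_pos hc hτ) J₂
  refine ⟨J - v.B J, ?_, winI v f F, A, ?_, ?_⟩
  · have h3 := win_floor v J
    have h4 : (J₂ : ℝ) ≤ J := by exact_mod_cast hJ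
    have h5 : 1 / (1 - v.b) * (J₁ : ℝ) ≤ 1 / (1 - v.b) * ((J - v.B J : ℕ) : ℝ) := by linarith
    have h6 : (J₁ : ℝ) ≤ ((J - v.B J : ℕ) : ℝ) := le_of_mul_le_mul_left h5 (by positivity)
    exact_mod_cast h6
  · have h1 := h _ J F A hA
    have e1 : 1 / (1 - v.b) * ((1 - v.b) * τ) = τ := by field_simp
    rwa [e1] at h1
  · have h1 : (WyI S₂ v f).St ((1 - v.b) * τ) (J - v.B J) (winI v f F) A := wyi_mk hA
    refine (WyI S₂ v f).mono ?_ h1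
    calc (1 - v.b) * τ ≤ 1 * τ := mul_le_mul_of_nonneg_right (by linarith) hτ.le
      _ = τ := one_mul τ

end Pool.NFT33
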