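import Pool.Agent.H33.NFT.Chi
import Pool.Agent.H65.ORD.Cnt

/-!
# The entropy of the base in a slab

`cnt_slab`: upper bound of the entropy of the base, if the natural height of one coordinate is known
to `a` digits given the natural heights of the others.
-/

set_option autoImplicit false

namespace Pool.NFT33

open Finset Real MvPolynomial
open Pool.Agent.H49.Ent Pool.Agent.H32.Dense Pool.STK Pool.KA Pool.KSAT Pool.K2S Pool.PB Pool.S6C
open Pool.GEN Pool.REX Pool.REX83 Pool.TGT Pool.ORD65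
open Pool.TUB (lo lo_eq lo_ext seq_up CH_le_dig)

variable {m n J : ℕ}

/-- Two samples with the same side information and near positions before `l`: the polynomial. -/
theorem ChI.dQ2 {F : Fam m J} {v : Vz m} {c : ℕ → Fin m} {n₀ k K t ρ₁ : ℕ} {g : ℕ → ℕ}
    {d : CD F v} {A : F.Ω → Prop} (h : ChI F v c n₀ k g K t ρ₁ d A) {ω ω' : F.Ω} (hω : A ω)
    (hZ : (v.win F).Z ω = (v.win F).Z ω') (hT : F.T ω = F.T ω') {l : ℕ} (hl : l ≤ n₀)
    (hx : ∀ j < l, |F.x ω' (c j) - F.x ω (c j)| ≤ 1 / 2 ^ J) :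
    |eval (bt F ω') (d.Q ((v.win F).Z ω') l) - eval (bt F ω) (d.Q ((v.win F).Z ω) l)| ≤
      2 ^ t / 2 ^ (g l + ρ₁) := by
  classical
  obtain ⟨x, hxd⟩ : ∃ x : Option (Fin m) → ℝ, x = fun o => match o with
    | none => F.t ω
    | some i => if ∃ j < l, c j = i then F.x ω' i else F.x ω i := ⟨_, rfl⟩
  have hxn : x none = F.t ω := by rw [hxd]
  have hxi : ∀ j < l, x (some (c j)) = F.x ω' (c j) := fun j hj => by
    rw [hxd]
    exact if_pos ⟨j, hj, rfl⟩
  have ht : F.t ω = F.t ω' := by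
    unfold Fam.t
    rw [hT]
  have e1 : eval (bt F ω') (d.Q ((v.win F).Z ω') l) = eval x (d.Q ((v.win F).Z ω) l) := by
    rw [← hZ]
    refine h.dep _ l _ _ ?_ fun j hj => ?_
    · rw [hxn, ht]
      rfl
    · rw [hxi j hj]
      rfl
  rw [e1]
  refine h.slp ω hω l hl x fun o => ?_
  rcases o with _ | i
  · rw [hxn]
    show |F.t ω - F.t ω| ≤ _
    rw [sub_self, abs_zero]
    positivity
  · rw [hxd]
    show |(if ∃ j < l, c j = i then F.x ω' i else F.x ω i) - F.x ω i| ≤ _
    split_ifs with hi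
    · obtain ⟨j, hj, rfl⟩ := hi
      exact hx j hj
    · rw [sub_self, abs_zero]
      positivity

/-- **The entropy of the base in a slab.** -/
theorem cnt_slab {F : Fam m J} {v : Vz m} {c : ℕ → Fin m} {n₀ k K t ρ₁ : ℕ} {g : ℕ → ℕ}
    {d : CD F v} {A : F.Ω → Prop} (h : ChI F v c n₀ k g K t ρ₁ d A) {ρ a : ℕ}
    (h1 : ρ + t + 5 ≤ ρ₁) (h2 : ∀ l < n₀, g l + ρ + 3 ≤ J) (haρ : a ≤ ρ) {p : ℕ} (hp : p < n₀)
    {q : F.Ω → ℝ} (hq : IsLaw q) (hA : ∀ ω, 0 < q ω → A ω) {Γ : Type} (Y : F.Ω → Γ)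
    (hY : ∀ ω ω', A ω → A ω' → Y ω = Y ω' → (v.win F).Z ω = (v.win F).Z ω' ∧ F.T ω = F.T ω')
    {C : ℝ} (hC : 1 ≤ C) (hsl : ∀ ω ω', A ω → A ω' → Y ω = Y ω' →
      (∀ l < n₀, l ≠ p → ⌊(2 : ℝ) ^ ρ * d.hgt c g ω l⌋ = ⌊(2 : ℝ) ^ ρ * d.hgt c g ω' l⌋) →
      |d.hgt c g ω p - d.hgt c g ω' p| ≤ C / 2 ^ a) :
    CH q (fun ω (l : Fin n₀) => F.X J ω (c l)) Y ≤
      ((∑ l ∈ range n₀, ((J : ℝ) - g l)) + (n₀ - 1) * t - a) * Real.log 2 +
        (2 * n₀ + 1) * Real.log (2 * C + 7) := by
  classical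
  obtain ⟨K', hK⟩ : ∃ K', K' = Real.log (2 * C + 7) := ⟨_, rfl⟩
  have hK0 : 0 ≤ K' := by
    rw [hK]
    exact Real.log_nonneg (by linarith)
  have hl2 : 0 < Real.log 2 := Real.log_pos one_lt_two
  obtain ⟨H, hH⟩ : ∃ H : F.Ω → ℕ → ℤ, H = fun ω l => ⌊(2 : ℝ) ^ ρ * d.hgt c g ω l⌋ := ⟨_, rfl⟩
  obtain ⟨X, hX⟩ : ∃ X : F.Ω → ℕ → ℤ, X = fun ω l => if l < n₀ then (if l = p then 0 else H ω l)
    else if l = n₀ then H ω p else F.X J ω (c (l - n₀ - 1)) := ⟨_, rfl⟩
  obtain ⟨e, he⟩ : ∃ e : ℕ → ℝ, e = fun l => if l < n₀ then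
      (if l = p then 0 else ((ρ : ℝ) + t) * Real.log 2) + K' else
    if l = n₀ then ((ρ : ℝ) - a) * Real.log 2 + K' else
      ((J : ℝ) - g (l - n₀ - 1) - ρ) * Real.log 2 + K' := ⟨_, rfl⟩
  have hlog : ∀ (x D : ℝ) (d : ℕ), x ≤ D * 2 ^ d → 0 < x → 0 < D → D ≤ 2 * C + 7 →
      Real.log x ≤ (d : ℝ) * Real.log 2 + K' := by
    intro x D d h1 h2 h3 h4
    refine (Real.log_le_log h2 h1).trans ?_
    rw [Real.log_mul h3.ne' (by positivity), Real.log_pow, hK]
    have := Real.log_le_log h3 h4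
    linarith
  have hXp : ∀ ω, X ω n₀ = H ω p := fun ω => by
    rw [hX]
    simp only
    rw [if_neg (lt_irrefl _), if_pos trivial]
  have hXl : ∀ ω, ∀ l < n₀, l ≠ p → X ω l = H ω l := fun ω l hl hlp => by
    rw [hX]
    simp only
    rw [if_pos hl, if_neg hlp]
  have hXx : ∀ ω, ∀ l < n₀, X ω (n₀ + 1 + l) = F.X J ω (c l) := fun ω l hl => by
    rw [hX]
    simp only
    rw [if_neg (by omega), if_neg (by omega)]
    have e4 : n₀ + 1 + l - n₀ - 1 = l := by omega
    rw [e4]
  have hflo : ∀ (x y D : ℝ), |x - y| ≤ D → |((⌊(2 : ℝ) ^ ρ * x⌋ - ⌊(2 : ℝ) ^ ρ * y⌋ : ℤ) : ℝ)| ≤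
      2 ^ ρ * D + 1 := by
    intro x y D hxy
    refine Pool.TUB.floor_dist ?_
    rw [← mul_sub, abs_mul, abs_of_pos (by positivity : (0 : ℝ) < 2 ^ ρ)]
    exact mul_le_mul_of_nonneg_left hxy (by positivity)
  have h1' := seq_up hq X Y 0 e (2 * n₀ + 1) (Nat.zero_le _) fun l _ hl => by
    obtain ⟨W, hW⟩ : ∃ W : F.Ω → (ℕ → ℤ) × Γ, W = fun ω => (lo l X ω, Y ω) := ⟨_, rfl⟩
    rw [← hW]
    by_cases hln : l < n₀
    · by_cases hlp : l = p
      · have key : CH q (fun ω => X ω l) W ≤ Real.log (2 * 0 + 1) := by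
          refine CH_le_dig hq _ _ fun ω ω' h1 h2 hWe => ?_
          rw [hX]
          simp only
          rw [if_pos hln, if_pos hlp, if_pos hln, if_pos hlp]
          simp
        refine key.trans ?_
        rw [he]
        simp only
        rw [if_pos hln, if_pos hlp]
        simp only [mul_zero, zero_add, Real.log_one]
        exact hK0
      · have key : CH q (fun ω => X ω l) W ≤ Real.log (2 * (2 ^ ρ * (2 * 2 ^ t) + 1) + 1) := by
          refine CH_le_dig hq _ _ fun ω ω' h3 h4 hWe => ?_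
          rw [hXl ω l hln hlp, hXl ω' l hln hlp, hH]
          refine hflo _ _ _ ?_
          have a1 := h.nat ω (hA ω h3) l hln.le
          have a2 := h.nat ω' (hA ω' h4) l hln.le
          rw [abs_le] at a1 a2 ⊢
          constructor <;> linarith [a1.1, a1.2, a2.1, a2.2]
        refine key.trans ?_
        rw [he]
        simp only
        rw [if_pos hln, if_neg hlp]
        have p1 : (1 : ℝ) ≤ 2 ^ (ρ + t) := one_le_pow₀ (by norm_num)
        have h3 := hlog (2 * (2 ^ ρ * (2 * 2 ^ t) + 1) + 1) 7 (ρ + t) (by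
          rw [pow_add] at p1 ⊢
          nlinarith) (by positivity) (by norm_num) (by linarith)
        push_cast at h3
        exact h3
    · by_cases hln2 : l = n₀
      · subst hln2
        have key : CH q (fun ω => X ω l) W ≤ Real.log (2 * (2 ^ ρ * (C / 2 ^ a) + 1) + 1) := by
          refine CH_le_dig hq _ _ fun ω ω' h3 h4 hWe => ?_
          rw [hW] at hWe
          have e1 := Prod.ext_iff.1 hWe
          rw [hXp, hXp, hH]
          refine hflo _ _ _ ?_
          refine hsl ω ω' (hA ω h3) (hA ω' h4) e1.2 fun j hj hjp => ?_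
          have e3 := lo_eq e1.1 hj
          rw [hXl ω j hj hjp, hXl ω' j hj hjp, hH] at e3
          exact e3
        refine key.trans ?_
        rw [he]
        simp only
        rw [if_neg (lt_irrefl _), if_pos trivial]
        have p1 : (1 : ℝ) ≤ 2 ^ (ρ - a) := one_le_pow₀ (by norm_num)
        have e5 : (2 : ℝ) ^ ρ * (C / 2 ^ a) = C * 2 ^ (ρ - a) := by
          obtain ⟨r, hr⟩ : ∃ r, ρ = a + r := ⟨ρ - a, by omega⟩
          have e8 : ρ - a = r := by omega
          rw [e8, hr, pow_add]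
          field_simp
        have h3 := hlog (2 * (2 ^ ρ * (C / 2 ^ a) + 1) + 1) (2 * C + 3) (ρ - a) (by
          rw [e5]
          nlinarith) (by positivity) (by linarith) (by linarith)
        rw [Nat.cast_sub haρ] at h3
        exact h3
      · obtain ⟨j, hj⟩ : ∃ j, l = n₀ + 1 + j := ⟨l - (n₀ + 1), by omega⟩
        have hjn : j < n₀ := by omega
        have e4 : l - n₀ - 1 = j := by omega
        have key : CH q (fun ω => X ω l) W ≤
            Real.log (2 * (2 * 2 ^ (J - (g j + ρ)) + 1) + 1) := by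
          refine CH_le_dig hq _ _ fun ω ω' h3 h4 hWe => ?_
          rw [hW] at hWe
          have e1 := Prod.ext_iff.1 hWe
          obtain ⟨z1, z2⟩ := hY ω ω' (hA ω h3) (hA ω' h4) e1.2
          have e5 : H ω j = H ω' j := by
            by_cases hjp : j = p
            · have e3 := lo_eq e1.1 (show n₀ < l by omega)
              rw [hXp, hXp] at e3
              rw [hjp]
              exact e3
            · have e3 := lo_eq e1.1 (show j < l by omega)
              rwa [hXl ω j hjn hjp, hXl ω' j hjn hjp] at e3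
          have e6 : ∀ i < j, F.X J ω (c i) = F.X J ω' (c i) := fun i hi => by
            have e3 := lo_eq e1.1 (show n₀ + 1 + i < l by omega)
            rwa [hXx ω i (by omega), hXx ω' i (by omega)] at e3
          rw [hj, hXx ω j hjn, hXx ω' j hjn]
          refine X_near F (by have := h2 j hjn; omega) ?_
          have e7 := h.dQ2 (hA ω h3) z1 z2 hjn.le (l := j) fun i hi => by
            rw [abs_sub_comm]
            exact x_near F (e6 i hi)
          have e8 : |d.hgt c g ω j - d.hgt c g ω' j| ≤ 1 / 2 ^ ρ := by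
            rw [hH] at e5
            have a1 := (Int.abs_sub_lt_one_of_floor_eq_floor e5).le
            rw [← mul_sub, abs_mul, abs_of_pos (by positivity : (0 : ℝ) < 2 ^ ρ)] at a1
            rw [le_div_iff₀ (by positivity)]
            linarith
          have e9 : F.x ω (c j) - F.x ω' (c j) = (d.hgt c g ω j - d.hgt c g ω' j) / 2 ^ g j -
              (eval (bt F ω') (d.Q ((v.win F).Z ω') j) -
                eval (bt F ω) (d.Q ((v.win F).Z ω) j)) := by
            unfold CD.hgt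
            field_simp
            ring
          rw [e9]
          refine (abs_sub _ _).trans ?_
          have f1 : |(d.hgt c g ω j - d.hgt c g ω' j) / 2 ^ g j| ≤ 1 / 2 ^ (g j + ρ) := by
            rw [abs_div, abs_of_pos (by positivity : (0 : ℝ) < 2 ^ g j), pow_add]
            rw [div_le_div_iff₀ (by positivity) (by positivity)]
            rw [le_div_iff₀ (by positivity)] at e8
            have := mul_le_mul_of_nonneg_right e8 (by positivity : (0 : ℝ) ≤ 2 ^ g j)
            linarith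
          have f2 : (2 : ℝ) ^ t / 2 ^ (g j + ρ₁) ≤ 1 / 2 ^ (g j + ρ) := by
            rw [div_le_div_iff₀ (by positivity) (by positivity), one_mul, ← pow_add]
            exact pow_le_pow_right₀ (by norm_num) (by omega)
          have f3 : (2 : ℝ) / 2 ^ (g j + ρ) = 1 / 2 ^ (g j + ρ) + 1 / 2 ^ (g j + ρ) := by ring
          rw [f3]
          exact add_le_add f1 (e7.trans f2)
        refine key.trans ?_
        rw [he]
        simp only
        rw [if_neg hln, if_neg hln2, e4]
        have p1 : (1 : ℝ) ≤ 2 ^ (J - (g j + ρ)) := one_le_pow₀ (by norm_num)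
        have h3 := hlog (2 * (2 * 2 ^ (J - (g j + ρ)) + 1) + 1) 7 (J - (g j + ρ)) (by nlinarith)
          (by positivity) (by norm_num) (by linarith)
        rw [Nat.cast_sub (by have := h2 j hjn; omega)] at h3
        push_cast at h3
        linarith
  have h2' : CH q (fun ω (l : Fin n₀) => F.X J ω (c l)) Y ≤
      CH q (lo (2 * n₀ + 1) X) (fun ω => (lo 0 X ω, Y ω)) := by
    refine le_trans (CH_mono_cond hq.nonneg (W' := Y) (W := fun ω => (lo 0 X ω, Y ω))
      fun ω ω' _ _ e => ?_) (CH_mono_left hq.nonneg fun ω ω' _ _ e => ?_)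
    · have e0 : lo 0 X ω = lo 0 X ω' := lo_ext fun l hl => absurd hl (Nat.not_lt_zero l)
      exact Prod.ext e0 e
    · have e1 := (Prod.ext_iff.1 e).1
      funext l
      have hl := l.2
      have e3 := lo_eq e1 (show n₀ + 1 + l < 2 * n₀ + 1 by omega)
      rwa [hXx ω l hl, hXx ω' l hl] at e3
  refine h2'.trans (h1'.trans (le_of_eq ?_))
  have hs1 : ∑ l ∈ range n₀, e l = (n₀ - 1) * (((ρ : ℝ) + t) * Real.log 2) + n₀ * K' := by
    have h3 : ∀ l ∈ range n₀, e l = (((ρ : ℝ) + t) * Real.log 2 + K') -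
        (if l = p then ((ρ : ℝ) + t) * Real.log 2 else 0) := fun l hl => by
      rw [he]
      simp only
      rw [if_pos (mem_range.1 hl)]
      split_ifs <;> ring
    rw [Finset.sum_congr rfl h3, Finset.sum_sub_distrib, Finset.sum_const, Finset.card_range,
      nsmul_eq_mul, Finset.sum_ite_eq' (range n₀) p, if_pos (mem_range.2 hp)]
    ring
  have hs2 : ∑ l ∈ range n₀, e (n₀ + 1 + l) =
      (∑ l ∈ range n₀, ((J : ℝ) - g l)) * Real.log 2 - n₀ * (ρ * Real.log 2) + n₀ * K' := by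
    have h3 : ∀ l ∈ range n₀, e (n₀ + 1 + l) = ((J : ℝ) - g l) * Real.log 2 -
        ρ * Real.log 2 + K' := fun l hl => by
      have hl' := mem_range.1 hl
      rw [he]
      simp only
      rw [if_neg (by omega), if_neg (by omega)]
      have e4 : n₀ + 1 + l - n₀ - 1 = l := by omega
      rw [e4]
      ring
    rw [Finset.sum_congr rfl h3, Finset.sum_add_distrib, Finset.sum_sub_distrib,
      Finset.sum_const, Finset.sum_const, Finset.card_range, nsmul_eq_mul, nsmul_eq_mul,
      ← Finset.sum_mul]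
  have hs3 : e n₀ = ((ρ : ℝ) - a) * Real.log 2 + K' := by
    rw [he]
    simp only
    rw [if_neg (lt_irrefl _), if_pos trivial]
  have hs4 : ∑ l ∈ Finset.Ico 0 (2 * n₀ + 1), e l = (∑ l ∈ range n₀, e l) + e n₀ +
      ∑ l ∈ range n₀, e (n₀ + 1 + l) := by
    rw [← Finset.range_eq_Ico, show 2 * n₀ + 1 = (n₀ + 1) + n₀ by ring, Finset.sum_range_add,
      Finset.sum_range_succ]
  rw [hs4, hs1, hs2, hs3, ← hK]
  push_cast
  ring

end Pool.NFT33
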