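import Pool.Agent.H89.IMG.Zmd
import Pool.Agent.H89.IMG.Cns

/-!
# The velocities of the base are not in a slab

`slab_part`: if the natural velocities of the base are in a slab (a closed covector, a closed
constant) up to `a` digits, then the value of the covector at the beginning of the window is a
closed value. `noslab_cls`: this is impossible in a class in which the base is exact behind closed
values.
-/

set_option autoImplicit false

namespace Pool.NFT33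

open Finset Real MvPolynomial Filter
open Pool.Agent.H49.Ent Pool.Agent.H32.Dense Pool.STK Pool.KA Pool.KSAT Pool.K2S Pool.PB Pool.S6C
open Pool.GEN Pool.REX Pool.REX83 Pool.TGT Pool.GRW Pool.ORD65
open Pool.OWN17 (root_fix)
open Pool.STAT.CLO (Inj)

variable {m n J : ℕ}

section

variable {F : Fam m J} {v : Vz m}

/-- The value of a covector at the beginning of the window, to `a` digits. -/
noncomputable def slv (d : CD F v) (n₀ a : ℕ) (nn : (v.win F).ζ → ℕ → ℝ) (ω : F.Ω) : ℤ :=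
  ⌊(2 : ℝ) ^ a * ∑ l ∈ range n₀, nn ((v.win F).Z ω) l * d.a ((v.win F).l ω, (v.win F).Z ω) l⌋

variable {c : ℕ → Fin m} {n₀ k K t ρ₁ : ℕ} {g : ℕ → ℕ} {d : CD F v} {A : F.Ω → Prop}

/-- The times in the windows. -/
theorem win_t01 (ω : F.Ω) : |(v.win F).t ω| ≤ 1 := by
  obtain ⟨h1, h2⟩ := tm_mem (v.win F) ω
  rw [abs_of_nonneg h1]
  exact h2

/-- The covector at a sample. -/
theorem slab_cov (h : ChI F v c n₀ k g K t ρ₁ d A) {nn : (v.win F).ζ → ℕ → ℝ}
    {al : (v.win F).ζ → ℝ} (hnn : ∀ y, ∀ l < n₀, |nn y l| ≤ 1) {a : ℕ} (h1 : a + t + 5 ≤ ρ₁)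
    (hsl : ∀ ω, A ω → |∑ l ∈ range n₀, nn ((v.win F).Z ω) l *
      d.b ((v.win F).l ω, (v.win F).Z ω) l - al ((v.win F).Z ω)| ≤ 1 / 2 ^ a) {ω : F.Ω}
    (hω : A ω) : |∑ l ∈ range n₀, nn ((v.win F).Z ω) l * d.hgt c g ω l -
      (∑ l ∈ range n₀, nn ((v.win F).Z ω) l * d.a ((v.win F).l ω, (v.win F).Z ω) l +
        (v.win F).t ω * al ((v.win F).Z ω))| ≤ (n₀ + 1) / 2 ^ a := by
  obtain ⟨y, hy⟩ : ∃ y, y = (v.win F).Z ω := ⟨_, rfl⟩
  obtain ⟨s, hs⟩ : ∃ s, s = ((v.win F).l ω, (v.win F).Z ω) := ⟨_, rfl⟩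
  obtain ⟨τ, hτ⟩ : ∃ τ, τ = (v.win F).t ω := ⟨_, rfl⟩
  have hτ1 : |τ| ≤ 1 := by rw [hτ]; exact win_t01 ω
  have hs1 := hsl ω hω
  have hlin : ∀ l < n₀, |d.hgt c g ω l - (d.a s l + τ * d.b s l)| ≤ 1 / 2 ^ a := by
    intro l hl
    have h2 := h.lin ω hω l hl.le
    rw [← hs, ← hτ] at h2
    refine h2.trans ?_
    rw [div_le_div_iff₀ (by positivity) (by positivity), one_mul, ← pow_add]
    exact pow_le_pow_right₀ (by norm_num) (by omega)
  rw [← hs, ← hy] at hs1 ⊢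
  rw [← hτ]
  have e1 : ∑ l ∈ range n₀, nn y l * d.hgt c g ω l -
      (∑ l ∈ range n₀, nn y l * d.a s l + τ * al y) =
      ∑ l ∈ range n₀, nn y l * (d.hgt c g ω l - (d.a s l + τ * d.b s l)) +
        τ * (∑ l ∈ range n₀, nn y l * d.b s l - al y) := by
    have e2 : ∑ l ∈ range n₀, nn y l * (d.hgt c g ω l - (d.a s l + τ * d.b s l)) =
        ∑ l ∈ range n₀, nn y l * d.hgt c g ω l - ∑ l ∈ range n₀, nn y l * d.a s l -
          τ * ∑ l ∈ range n₀, nn y l * d.b s l := by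
      rw [Finset.mul_sum, ← Finset.sum_sub_distrib, ← Finset.sum_sub_distrib]
      exact Finset.sum_congr rfl fun l _ => by ring
    rw [e2]
    ring
  rw [e1]
  refine (abs_add_le _ _).trans ?_
  have e3 : |∑ l ∈ range n₀, nn y l * (d.hgt c g ω l - (d.a s l + τ * d.b s l))| ≤
      n₀ * (1 / 2 ^ a) := by
    refine (Finset.abs_sum_le_sum_abs _ _).trans ?_
    calc ∑ l ∈ range n₀, |nn y l * (d.hgt c g ω l - (d.a s l + τ * d.b s l))| ≤
        ∑ _l ∈ range n₀, (1 : ℝ) / 2 ^ a := Finset.sum_le_sum fun l hl => by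
          rw [abs_mul]
          calc |nn y l| * |d.hgt c g ω l - (d.a s l + τ * d.b s l)| ≤ 1 * (1 / 2 ^ a) :=
                mul_le_mul (hnn y l (mem_range.1 hl)) (hlin l (mem_range.1 hl)) (abs_nonneg _)
                  zero_le_one
            _ = 1 / 2 ^ a := one_mul _
      _ = n₀ * (1 / 2 ^ a) := by rw [Finset.sum_const, Finset.card_range, nsmul_eq_mul]
  have e4 : |τ * (∑ l ∈ range n₀, nn y l * d.b s l - al y)| ≤ 1 / 2 ^ a := by
    rw [abs_mul]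
    calc |τ| * |∑ l ∈ range n₀, nn y l * d.b s l - al y| ≤ 1 * (1 / 2 ^ a) :=
          mul_le_mul hτ1 hs1 (abs_nonneg _) zero_le_one
      _ = 1 / 2 ^ a := one_mul _
  have e5 : ((n₀ : ℝ) + 1) / 2 ^ a = n₀ * (1 / 2 ^ a) + 1 / 2 ^ a := by ring
  rw [e5]
  exact add_le_add e3 e4

/-- **In a slab the value of the covector is closed**, on a large part of the event. -/
theorem slab_part (h : ChI F v c n₀ k g K t ρ₁ d A) {nn : (v.win F).ζ → ℕ → ℝ}
    {al : (v.win F).ζ → ℝ} (hnn : ∀ y, ∀ l < n₀, |nn y l| ≤ 1) {a : ℕ} (h1 : a + t + 5 ≤ ρ₁)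
    (h2 : ∀ l < n₀, g l + a + 3 ≤ J)
    (hsl : ∀ ω, A ω → |∑ l ∈ range n₀, nn ((v.win F).Z ω) l *
      d.b ((v.win F).l ω, (v.win F).Z ω) l - al ((v.win F).Z ω)| ≤ 1 / 2 ^ a) :
    ∃ B : F.Ω → Prop, Sub B A ∧
      Pe F.p A ≤ (99 ^ m * (2 * ((3 * n₀ + 3 : ℕ) : ℝ) + 1) ^ 1) * Pe F.p B ∧
      ∀ ω ω', B ω → B ω' → ptr F J ω = ptr F J ω' → v.y J F ω = v.y J F ω' →
        ((v.win F).Z ω, slv d n₀ a nn ω) = ((v.win F).Z ω', slv d n₀ a nn ω') := by
  have hB := (v.floor_le J).1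
  have h99 : ((2 : ℝ) * (49 : ℕ) + 1) = 99 := by norm_num
  obtain ⟨B₁, b1, b2, φ₁, b3⟩ := Pool.S6K.exact_label F.isLaw 49 (ptr F J)
    (fun ω => fl (v.B J) (F.x1 (v.B J) ω)) A (fun ω ω' _ _ hp i => by
      have h1 := Prod.ext_iff.mp hp
      have h2 := Prod.ext_iff.mp h1.2
      exact_mod_cast x1_near F hB h1.1 h2.1 i)
  rw [h99] at b2
  have hZ : ∀ ω ω', B₁ ω → B₁ ω' → ptr F J ω = ptr F J ω' → v.y J F ω = v.y J F ω' →
      (v.win F).Z ω = (v.win F).Z ω' := by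
    intro ω ω' hω hω' hp hy
    have h1 := Prod.ext_iff.mp hp
    have h2 := Prod.ext_iff.mp h1.2
    have hT : F.T ω = F.T ω' := h2.1
    have hx : fl (v.B J) (F.x1 (v.B J) ω) = fl (v.B J) (F.x1 (v.B J) ω') := by
      rw [b3 ω hω, b3 ω' hω', hp]
    refine Prod.ext hy ?_
    show F.c (v.B J) ω = F.c (v.B J) ω'
    unfold Fam.c
    have c1 : F.T1 (v.B J) ω = F.T1 (v.B J) ω' := by
      unfold Fam.T1
      rw [hT]
    have hZ' : F.Z ω = F.Z ω' := h2.2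
    rw [c1, hx, hZ']
  obtain ⟨B₂, b4, b5, φ₂, b6⟩ := Pool.S6K.exact_label F.isLaw (3 * n₀ + 3)
    (fun ω => (ptr F J ω, v.y J F ω)) (fun ω (_ : Fin 1) => slv d n₀ a nn ω) B₁
    (fun ω ω' hω hω' hp _ => by
      have h0 := Prod.ext_iff.mp hp
      have e1 := Prod.ext_iff.mp h0.1
      have e2 := Prod.ext_iff.mp e1.2
      have hT : F.T ω = F.T ω' := e2.1
      have hX : F.X J ω = F.X J ω' := e1.1
      have hZ' := hZ ω ω' hω hω' h0.1 h0.2
      have ht : F.t ω' = F.t ω := by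
        unfold Fam.t
        rw [hT]
      have htw : (v.win F).t ω = (v.win F).t ω' := by
        show ((F.T ω % 2 ^ (J - v.B J) : ℕ) : ℝ) / 2 ^ (J - v.B J) =
          ((F.T ω' % 2 ^ (J - v.B J) : ℕ) : ℝ) / 2 ^ (J - v.B J)
        rw [hT]
      have c1 := slab_cov h hnn h1 hsl (b1 ω hω)
      have c2 := slab_cov h hnn h1 hsl (b1 ω' hω')
      rw [← hZ', ← htw] at c2
      obtain ⟨y, hy⟩ : ∃ y, y = (v.win F).Z ω := ⟨_, rfl⟩
      have c3 : |∑ l ∈ range n₀, nn y l * d.hgt c g ω' l - ∑ l ∈ range n₀, nn y l *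
          d.hgt c g ω l| ≤ n₀ * (1 / 2 ^ a) := by
        rw [← Finset.sum_sub_distrib]
        refine (Finset.abs_sum_le_sum_abs _ _).trans ?_
        calc ∑ l ∈ range n₀, |nn y l * d.hgt c g ω' l - nn y l * d.hgt c g ω l| ≤
            ∑ _l ∈ range n₀, (1 : ℝ) / 2 ^ a := Finset.sum_le_sum fun l hl => by
              have hl' := mem_range.1 hl
              have e5 := h.dQ (b1 ω hω) hl'.le (x := bt F ω') (ρ := a) (fun o => by
                cases o with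
                | none =>
                  show |F.t ω' - F.t ω| ≤ _
                  rw [ht, sub_self, abs_zero]
                  positivity
                | some i =>
                  show |F.x ω' i - F.x ω i| ≤ _
                  rw [abs_sub_comm]
                  exact x_near F (congrFun hX i)) h1 (h2 l hl')
              have e6 : 2 ^ g l * (bt F ω' (some (c l)) - eval (bt F ω')
                  (d.Q ((v.win F).Z ω) l)) = d.hgt c g ω' l := by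
                unfold CD.hgt
                rw [hZ']
                rfl
              rw [e6] at e5
              rw [← mul_sub, abs_mul]
              calc |nn y l| * |d.hgt c g ω' l - d.hgt c g ω l| ≤ 1 * (1 / 2 ^ a * (5 / 32)) :=
                    mul_le_mul (hnn y l hl') e5 (abs_nonneg _) zero_le_one
                _ ≤ 1 / 2 ^ a := by
                    have : (0 : ℝ) < 1 / 2 ^ a := by positivity
                    linarith
          _ = n₀ * (1 / 2 ^ a) := by rw [Finset.sum_const, Finset.card_range, nsmul_eq_mul]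
      rw [← hy] at c1 c2
      have c4 : |∑ l ∈ range n₀, nn y l * d.a ((v.win F).l ω, y) l -
          ∑ l ∈ range n₀, nn y l * d.a ((v.win F).l ω', y) l| ≤ (3 * n₀ + 2) * (1 / 2 ^ a) := by
        have e7 : ((n₀ : ℝ) + 1) / 2 ^ a = (n₀ + 1) * (1 / 2 ^ a) := by ring
        rw [e7] at c1 c2
        rw [abs_le] at c1 c2 c3 ⊢
        constructor <;> linarith [c1.1, c1.2, c2.1, c2.2, c3.1, c3.2]
      have c5 : |((slv d n₀ a nn ω - slv d n₀ a nn ω' : ℤ) : ℝ)| ≤ (3 * n₀ + 2) + 1 := by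
        unfold slv
        rw [← hZ', ← hy]
        refine Pool.TUB.floor_dist ?_
        rw [← mul_sub, abs_mul, abs_of_pos (by positivity : (0 : ℝ) < 2 ^ a)]
        refine (mul_le_mul_of_nonneg_left c4 (by positivity)).trans (le_of_eq ?_)
        field_simp
      have c6 : |((slv d n₀ a nn ω - slv d n₀ a nn ω' : ℤ) : ℝ)| ≤ ((3 * n₀ + 3 : ℕ) : ℝ) := by
        have e8 : ((3 * n₀ + 3 : ℕ) : ℝ) = (3 * n₀ + 2) + 1 := by
          push_cast
          ring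
        rw [e8]
        exact c5
      exact_mod_cast c6)
  refine ⟨B₂, fun ω hω => b1 ω (b4 ω hω), ?_, fun ω ω' hω hω' hp hy => Prod.ext ?_ ?_⟩
  · calc Pe F.p A ≤ 99 ^ m * Pe F.p B₁ := b2
      _ ≤ 99 ^ m * ((2 * ((3 * n₀ + 3 : ℕ) : ℝ) + 1) ^ 1 * Pe F.p B₂) :=
          mul_le_mul_of_nonneg_left b5 (by positivity)
      _ = _ := by ring
  · exact hZ ω ω' (b4 ω hω) (b4 ω' hω') hp hy
  · show slv d n₀ a nn ω = slv d n₀ a nn ω'
    have e1 : slv d n₀ a nn ω = φ₂ (ptr F J ω, v.y J F ω) 0 := congrFun (b6 ω hω) 0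
    have e2 : slv d n₀ a nn ω' = φ₂ (ptr F J ω', v.y J F ω') 0 := congrFun (b6 ω' hω') 0
    rw [e1, e2, hp, hy]

/-- The value of the covector is a function of the line in the window. -/
theorem slv_slam (d : CD F v) (n₀ a : ℕ) (nn : (v.win F).ζ → ℕ → ℝ) {ω ω' : F.Ω}
    (h : slam F (v.B J) ω = slam F (v.B J) ω') :
    ((v.win F).Z ω, slv d n₀ a nn ω) = ((v.win F).Z ω', slv d n₀ a nn ω') := by
  have h1 := win_of_slam v F (w := 0) (Nat.zero_le _) h
  have h2 : (v.win F).l ω = (v.win F).l ω' := (Prod.ext_iff.mp h1).1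
  have h3 : (v.win F).Z ω = (v.win F).Z ω' := (Prod.ext_iff.mp (Prod.ext_iff.mp h1).2).1
  refine Prod.ext h3 ?_
  show slv d n₀ a nn ω = slv d n₀ a nn ω'
  unfold slv
  rw [h2, h3]

end

/-- **The natural velocities of the base are not in a slab.** -/
theorem noslab_cls {S : PCl m} (hne : S.Ne)
    (hpos : ∀ (τ : ℝ) (J : ℕ) (F : Fam m J) (A : F.Ω → Prop), S.St τ J F A → 0 < Pe F.p A)
    {c : ℕ → Fin m} {n₀ : ℕ} {Λ : ∀ J : ℕ, Fam m J → Type}
    {lab : ∀ (J : ℕ) (F : Fam m J), F.Ω → Λ J F} {X₀ w w₁ qm : ℝ}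
    (hzm : ZmX S c n₀ lab X₀ w w₁ qm) (hqm : 0 < qm) {v : Vz m} {J₁ : ℕ}
    (hy : ∀ J ≥ J₁, ∀ F : Fam m J, ∃ ψ : Λ J F → v.κ J F, ∀ ω, v.y J F ω = ψ (lab J F ω))
    (hw : w < v.b) (hvw : v.b < w₁) (hw1 : w₁ ≤ 1) {k K : ℕ} {g : ℕ → ℕ → ℕ} {tJ r₁ aJ : ℕ → ℕ}
    {d : ∀ (J : ℕ) (F : Fam m J), CD F v}
    (hch : Bas S (fun J F A => ChI F v c n₀ k (g J) K (tJ J) (r₁ J) (d J F) A))
    {nn : ∀ (J : ℕ) (F : Fam m J), (v.win F).ζ → ℕ → ℝ}
    {al : ∀ (J : ℕ) (F : Fam m J), (v.win F).ζ → ℝ}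
    (hnn : ∀ (J : ℕ) (F : Fam m J) y, ∀ l < n₀, |nn J F y l| ≤ 1) {p : ℕ} (hp : p < n₀)
    (hnp : ∀ (J : ℕ) (F : Fam m J) y, 1 ≤ |nn J F y p|)
    (hsl : Bas S (fun J F A => ∀ ω, A ω → |∑ l ∈ range n₀, nn J F ((v.win F).Z ω) l *
      (d J F).b ((v.win F).l ω, (v.win F).Z ω) l - al J F ((v.win F).Z ω)| ≤ 1 / 2 ^ aJ J))
    {C₁ α tt rr : ℝ} {γ : ℕ → ℝ} (hg : ∀ J : ℕ, ∀ l < n₀, |(g J l : ℝ) - γ l * J| ≤ C₁)
    (ht : ∀ J : ℕ, |(tJ J : ℝ) - tt * J| ≤ C₁) (hr : ∀ J : ℕ, rr * J - C₁ ≤ r₁ J)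
    (ha : ∀ J : ℕ, |(aJ J : ℝ) - α * J| ≤ C₁) (hn1 : α + tt < rr)
    (hn2 : ∀ l < n₀, γ l + α < 1)
    (hn3 : (∑ l ∈ range n₀, (1 - γ l)) + (n₀ - 1) * tt - α < X₀) : False := by
  classical
  obtain ⟨wp, hwpa, hwpb⟩ := exists_between hvw
  have hb0 := v.b0
  have hC₁ : 0 ≤ C₁ := (abs_nonneg _).trans (ha 0)
  -- the numbers
  have hev : ∀ᶠ J : ℕ in atTop, (v.B J ≤ ⌊wp * J⌋₊ ∧ ⌊wp * J⌋₊ ≤ J) ∧
      aJ J + tJ J + 5 ≤ r₁ J ∧ ∀ l < n₀, g J l + aJ J + 3 ≤ J := by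
    have hl : ∀ᶠ J : ℕ in atTop, ∀ l ∈ range n₀, g J l + aJ J + 3 ≤ J := by
      rw [Filter.eventually_all_finset]
      intro l hl
      have hl' := mem_range.1 hl
      filter_upwards [evl (hn2 l hl') (2 * C₁ + 3)] with J h1
      have h2 := abs_le.1 (hg J l hl')
      have h3 := abs_le.1 (ha J)
      have h4 : ((g J l + aJ J + 3 : ℕ) : ℝ) ≤ (J : ℝ) := by
        push_cast
        linarith [h2.2, h3.2]
      exact_mod_cast h4
    filter_upwards [evl hwpa 1, evl hn1 (3 * C₁ + 5), hl] with J h1 h2 h3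
    have hJ0 : (0 : ℝ) ≤ J := Nat.cast_nonneg J
    refine ⟨⟨?_, ?_⟩, ?_, fun l hl => h3 l (mem_range.2 hl)⟩
    · exact Nat.floor_le_floor (mul_le_mul_of_nonneg_right hwpa.le hJ0)
    · refine Nat.floor_le_of_le ?_
      have := mul_le_mul_of_nonneg_right (hwpb.le.trans hw1) hJ0
      linarith
    · have h4 := abs_le.1 (ht J)
      have h5 := abs_le.1 (ha J)
      have h6 := hr J
      have h7 : ((aJ J + tJ J + 5 : ℕ) : ℝ) ≤ r₁ J := by
        push_cast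
        linarith [h4.2, h5.2]
      exact_mod_cast h7
  obtain ⟨J₂, hJ₂⟩ := Filter.eventually_atTop.1 hev
  -- the closed value
  obtain ⟨val, hval⟩ : ∃ val : ∀ (J : ℕ) (F : Fam m J), F.Ω → Option ((v.win F).ζ × ℤ),
    val = fun J F ω => some ((v.win F).Z ω, slv (d J F) n₀ (aJ J) (nn J F) ω) := ⟨_, rfl⟩
  have key : Bas S (fun J F A => ∃ (e : (PtT F → Λ J F → (Fin m → ℤ) →
      Option ((v.win F).ζ × ℤ)) × (LnT F → Option ((v.win F).ζ × ℤ))) (B : F.Ω → Prop),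
      Sub B A ∧ Pe F.p A ≤ (99 ^ m * (2 * ((3 * n₀ + 3 : ℕ) : ℝ) + 1) ^ 1) * Pe F.p B ∧
      ∀ ω, B ω → e.1 (ptr F J ω) (lab J F ω) (F.D ⌊qm / 2 * J⌋₊ ω) = val J F ω ∧
        e.2 (slam F ⌊wp * J⌋₊ ω) = val J F ω) := by
    refine (hch.and hsl).mono (max J₁ J₂) ?_
    rintro J hJ F A ⟨h, hs⟩
    obtain ⟨ψ, hψ⟩ := hy J ((le_max_left _ _).trans hJ) F
    obtain ⟨⟨n1, n2⟩, n3, n4⟩ := hJ₂ J ((le_max_right _ _).trans hJ)
    obtain ⟨B, hBA, hBm, hdet⟩ := slab_part h (hnn J F) n3 n4 hs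
    obtain ⟨yp, hyp⟩ := fac (f := fun ω => (ptr F J ω, lab J F ω))
      (Y := fun ω => ((v.win F).Z ω, slv (d J F) n₀ (aJ J) (nn J F) ω)) (B := B) (by
      intro ω ω' hω hω' e
      have e1 := Prod.ext_iff.mp e
      refine hdet ω ω' hω hω' e1.1 ?_
      rw [hψ ω, hψ ω', show lab J F ω = lab J F ω' from e1.2])
    obtain ⟨yl, hyl⟩ := fac (f := slam F ⌊wp * (J : ℝ)⌋₊)
      (Y := fun ω => ((v.win F).Z ω, slv (d J F) n₀ (aJ J) (nn J F) ω)) (B := B) (by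
      intro ω ω' hω hω' hsl
      exact slv_slam (d J F) n₀ (aJ J) (nn J F) (Pool.EXC33.slam_of n1 n2 hsl))
    refine ⟨(fun u l _ => yp (u, l), yl), B, hBA, hBm, fun ω hω => ⟨?_, ?_⟩⟩
    · show yp (ptr F J ω, lab J F ω) = val J F ω
      rw [hyp ω hω, hval]
    · show yl (slam F ⌊wp * (J : ℝ)⌋₊ ω) = val J F ω
      rw [hyl ω hω, hval]
  obtain ⟨S₃, dN, hne₃, hsub₃, hN₃⟩ := root_fix
    (Δ := fun J F => (PtT F → Λ J F → (Fin m → ℤ) → Option ((v.win F).ζ × ℤ)) ×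
      (LnT F → Option ((v.win F).ζ × ℤ)))
    hne (fun J F e A => ∀ ω, A ω →
      e.1 (ptr F J ω) (lab J F ω) (F.D ⌊qm / 2 * J⌋₊ ω) = val J F ω ∧
        e.2 (slam F ⌊wp * J⌋₊ ω) = val J F ω)
    (fun J F d A B h hB ω hω => h ω (hB ω hω)) key
  obtain ⟨S₄, hne₄, hsub₄, hX⟩ := hzm S₃ hne₃ hsub₃ wp (by linarith) hwpb (qm / 2) (by linarith)
    (by linarith) (fun J F => Option ((v.win F).ζ × ℤ)) (fun J F => (dN J F).1)
    (fun J F => (dN J F).2) (fun τ J F A hA ω hω => by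
      obtain ⟨a1, a2⟩ := hN₃ τ J F A hA ω hω
      rw [a1, a2])
  have hsub : ∀ (τ : ℝ) (J : ℕ) (F : Fam m J) (A : F.Ω → Prop), S₄.St τ J F A → S.St τ J F A :=
    fun τ J F A h => hsub₃ τ J F A (hsub₄ τ J F A h)
  -- the contradiction
  obtain ⟨num, hnum⟩ : ∃ num, num = (∑ l ∈ range n₀, (1 - γ l)) + (n₀ - 1) * tt - α := ⟨_, rfl⟩
  rw [← hnum] at hn3
  obtain ⟨ρ, hρ⟩ : ∃ ρ : ℝ, ρ = (X₀ - num) / 2 := ⟨_, rfl⟩
  have hρ0 : 0 < ρ := by rw [hρ]; linarith
  have hl2 : 0 < Real.log 2 := Real.log_pos one_lt_two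
  obtain ⟨CC, hCC⟩ : ∃ CC : ℝ, CC = 3 * n₀ + 3 := ⟨_, rfl⟩
  have hCC1 : 1 ≤ CC := by
    rw [hCC]
    have : (0 : ℝ) ≤ n₀ := Nat.cast_nonneg _
    linarith
  obtain ⟨cc, hcc⟩ : ∃ cc : ℝ, cc = (2 * n₀ * C₁ + C₁) * Real.log 2 +
    (2 * n₀ + 1) * Real.log (2 * CC + 7) + 1 := ⟨_, rfl⟩
  obtain ⟨J₃, hJ₃⟩ := Filter.eventually_atTop.1 (evl (show (0 : ℝ) < ρ * Real.log 2 from
    mul_pos hρ0 hl2) cc)
  obtain ⟨τ, hτ, J₄, hB⟩ := ((hch.sub hsub).and (hsl.sub hsub)).and (hX ρ hρ0)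
  obtain ⟨J, hJ, F, A, hA⟩ := hne₄ τ hτ (max (max J₂ J₃) J₄)
  obtain ⟨⟨h, hs⟩, h6⟩ := hB J ((le_max_right _ _).trans hJ) F A hA
  obtain ⟨⟨n1, n2⟩, n3, n4⟩ := hJ₂ J ((le_max_left _ _).trans ((le_max_left _ _).trans hJ))
  have h7 := hJ₃ J ((le_max_right _ _).trans ((le_max_left _ _).trans hJ))
  have hJ0 : (0 : ℝ) ≤ J := Nat.cast_nonneg J
  have hpA := hpos τ J F A (hsub τ J F A hA)
  have hq := isLaw_cond F.isLaw hpA
  have hvA := hN₃ τ J F A (hsub₄ τ J F A hA)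
  have key2 := cnt_slab h (ρ := aJ J) (a := aJ J) n3 n4 le_rfl hp hq
    (fun ω hω => Pool.EXC33.cond_mem hω)
    (fun ω => (lab J F ω, (F.D ⌊qm / 2 * J⌋₊ ω, ((dN J F).2 (slam F ⌊wp * J⌋₊ ω), F.T ω))))
    (fun ω ω' hω hω' e => by
      simp only [Prod.mk.injEq] at e
      obtain ⟨e1, e2, e3, e4⟩ := e
      rw [(hvA ω hω).2, (hvA ω' hω').2, hval] at e3
      exact ⟨(Prod.ext_iff.1 (Option.some.inj e3)).1, e4⟩) hCC1
    (fun ω ω' hω hω' e hH => by
      simp only [Prod.mk.injEq] at e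
      obtain ⟨e1, e2, e3, e4⟩ := e
      rw [(hvA ω hω).2, (hvA ω' hω').2, hval] at e3
      have e5 := Prod.ext_iff.1 (Option.some.inj e3)
      have hZ : (v.win F).Z ω = (v.win F).Z ω' := e5.1
      have hU : slv (d J F) n₀ (aJ J) (nn J F) ω = slv (d J F) n₀ (aJ J) (nn J F) ω' := e5.2
      have htw : (v.win F).t ω = (v.win F).t ω' := by
        show ((F.T ω % 2 ^ (J - v.B J) : ℕ) : ℝ) / 2 ^ (J - v.B J) =
          ((F.T ω' % 2 ^ (J - v.B J) : ℕ) : ℝ) / 2 ^ (J - v.B J)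
        rw [e4]
      have c1 := slab_cov h (hnn J F) n3 hs hω
      have c2 := slab_cov h (hnn J F) n3 hs hω'
      rw [← hZ, ← htw] at c2
      unfold slv at hU
      rw [← hZ] at hU
      obtain ⟨y, hyd⟩ : ∃ y, y = (v.win F).Z ω := ⟨_, rfl⟩
      rw [← hyd] at c1 c2 hU
      have u1 := (Int.abs_sub_lt_one_of_floor_eq_floor hU).le
      rw [← mul_sub, abs_mul, abs_of_pos (by positivity : (0 : ℝ) < 2 ^ aJ J)] at u1
      have u2 : |∑ l ∈ range n₀, nn J F y l * (d J F).a ((v.win F).l ω, y) l -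
          ∑ l ∈ range n₀, nn J F y l * (d J F).a ((v.win F).l ω', y) l| ≤ 1 / 2 ^ aJ J := by
        rw [le_div_iff₀ (by positivity)]
        linarith
      have e7 : ((n₀ : ℝ) + 1) / 2 ^ aJ J = (n₀ + 1) * (1 / 2 ^ aJ J) := by ring
      rw [e7] at c1 c2
      have u3 : |∑ l ∈ range n₀, nn J F y l * ((d J F).hgt c (g J) ω l -
          (d J F).hgt c (g J) ω' l)| ≤ (2 * n₀ + 3) * (1 / 2 ^ aJ J) := by
        have e8 : ∑ l ∈ range n₀, nn J F y l * ((d J F).hgt c (g J) ω l -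
            (d J F).hgt c (g J) ω' l) = ∑ l ∈ range n₀, nn J F y l * (d J F).hgt c (g J) ω l -
              ∑ l ∈ range n₀, nn J F y l * (d J F).hgt c (g J) ω' l := by
          rw [← Finset.sum_sub_distrib]
          exact Finset.sum_congr rfl fun l _ => by ring
        rw [e8]
        rw [abs_le] at c1 c2 u2 ⊢
        constructor <;> linarith [c1.1, c1.2, c2.1, c2.2, u2.1, u2.2]
      rw [← Finset.add_sum_erase (range n₀) _ (mem_range.2 hp)] at u3
      have u4 : |∑ l ∈ (range n₀).erase p, nn J F y l * ((d J F).hgt c (g J) ω l -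
          (d J F).hgt c (g J) ω' l)| ≤ n₀ * (1 / 2 ^ aJ J) := by
        refine (Finset.abs_sum_le_sum_abs _ _).trans ?_
        calc ∑ l ∈ (range n₀).erase p, |nn J F y l * ((d J F).hgt c (g J) ω l -
            (d J F).hgt c (g J) ω' l)| ≤ ∑ _l ∈ (range n₀).erase p, (1 : ℝ) / 2 ^ aJ J :=
              Finset.sum_le_sum fun l hl => by
                have hl' := Finset.mem_erase.1 hl
                have hln := mem_range.1 hl'.2
                have a1 := (Int.abs_sub_lt_one_of_floor_eq_floor (hH l hln hl'.1)).le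
                rw [← mul_sub, abs_mul, abs_of_pos (by positivity : (0 : ℝ) < 2 ^ aJ J)] at a1
                have a2 : |(d J F).hgt c (g J) ω l - (d J F).hgt c (g J) ω' l| ≤
                    1 / 2 ^ aJ J := by
                  rw [le_div_iff₀ (by positivity)]
                  linarith
                rw [abs_mul]
                calc |nn J F y l| * |(d J F).hgt c (g J) ω l - (d J F).hgt c (g J) ω' l| ≤
                      1 * (1 / 2 ^ aJ J) := mul_le_mul (hnn J F y l hln) a2 (abs_nonneg _)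
                        zero_le_one
                  _ = 1 / 2 ^ aJ J := one_mul _
          _ ≤ n₀ * (1 / 2 ^ aJ J) := by
              rw [Finset.sum_const, nsmul_eq_mul]
              refine mul_le_mul_of_nonneg_right ?_ (by positivity)
              have := Finset.card_erase_le (s := range n₀) (a := p)
              rw [Finset.card_range] at this
              exact_mod_cast this
      have u5 : |nn J F y p * ((d J F).hgt c (g J) ω p - (d J F).hgt c (g J) ω' p)| ≤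
          (3 * n₀ + 3) * (1 / 2 ^ aJ J) := by
        rw [abs_le] at u3 u4 ⊢
        constructor <;> linarith [u3.1, u3.2, u4.1, u4.2]
      rw [abs_mul] at u5
      have u6 := hnp J F y
      have u7 : |(d J F).hgt c (g J) ω p - (d J F).hgt c (g J) ω' p| ≤
          |nn J F y p| * |(d J F).hgt c (g J) ω p - (d J F).hgt c (g J) ω' p| := by
        have := mul_le_mul_of_nonneg_right u6
          (abs_nonneg ((d J F).hgt c (g J) ω p - (d J F).hgt c (g J) ω' p))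
        linarith
      refine (u7.trans u5).trans (le_of_eq ?_)
      rw [hCC]
      ring)
  have h8 := h6.trans key2
  have hn1' : (1 : ℝ) ≤ n₀ := by
    have : 1 ≤ n₀ := by omega
    exact_mod_cast this
  have s1 : ∑ l ∈ range n₀, ((J : ℝ) - g J l) ≤ (∑ l ∈ range n₀, (1 - γ l)) * J + n₀ * C₁ := by
    have : ∑ l ∈ range n₀, ((J : ℝ) - g J l) ≤ ∑ l ∈ range n₀, ((1 - γ l) * J + C₁) := by
      refine Finset.sum_le_sum fun l hl => ?_
      have := (abs_le.1 (hg J l (mem_range.1 hl))).1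
      linarith
    refine this.trans (le_of_eq ?_)
    rw [Finset.sum_add_distrib, ← Finset.sum_mul, Finset.sum_const, Finset.card_range,
      nsmul_eq_mul]
  have s2 : ((n₀ : ℝ) - 1) * (tJ J : ℝ) ≤ (n₀ - 1) * (tt * J + C₁) :=
    mul_le_mul_of_nonneg_left (by linarith [(abs_le.1 (ht J)).2]) (by linarith)
  have s3 : (∑ l ∈ range n₀, ((J : ℝ) - g J l)) + (n₀ - 1) * tJ J - aJ J ≤
      num * J + (2 * n₀ * C₁ + C₁) := by
    have := (abs_le.1 (ha J)).1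
    rw [hnum]
    have e9 : ((n₀ : ℝ) - 1) * (tt * J + C₁) = (n₀ - 1) * tt * J + (n₀ - 1) * C₁ := by ring
    rw [e9] at s2
    linarith
  have s4 := mul_le_mul_of_nonneg_right s3 hl2.le
  have s5 : (X₀ - ρ) * Real.log 2 * J ≤ (num * J + (2 * n₀ * C₁ + C₁)) * Real.log 2 +
      (2 * n₀ + 1) * Real.log (2 * CC + 7) := h8.trans (by linarith)
  have s6 : X₀ - ρ = num + ρ := by rw [hρ]; ring
  rw [s6] at s5
  have s7 : ρ * Real.log 2 * J ≤ (2 * n₀ * C₁ + C₁) * Real.log 2 +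
      (2 * n₀ + 1) * Real.log (2 * CC + 7) := by linarith
  linarith

end Pool.NFT33
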